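import Mathlib

set_option autoImplicit false

open MeasureTheory Filter
open scoped ENNReal

namespace Pool.Agent.Y978.MG

/-- The shift on bi-infinite sequences. -/
def shift {A : Type*} (x : ℤ → A) : ℤ → A := fun n => x (n + 1)

/-- The Shannon entropy `-∑ p log p` of a function with finitely many values. -/
noncomputable def entFin {Ω κ : Type*} [MeasurableSpace Ω] [Fintype κ] (μ : Measure Ω)
    (f : Ω → κ) : ℝ :=
  ∑ i, Real.negMulLog (μ.real (f ⁻¹' {i}))

/-- The Kolmogorov-Sinai entropy of the transformation `θ` of the probability space `(Ω, μ)`, in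
`[0, ∞]`: the supremum over all finite measurable partitions (given by a measurable map `f` to
`Fin k`) of the limit (written as a limsup) of `(1/n) H(f, f ∘ θ, ..., f ∘ θ^(n-1))`. -/
noncomputable def ksEntropy {Ω : Type*} [MeasurableSpace Ω] (μ : Measure Ω) (θ : Ω → Ω) : ℝ≥0∞ :=
  ⨆ (k : ℕ) (f : Ω → Fin k) (_ : Measurable f),
    limsup (fun n : ℕ =>
      ENNReal.ofReal (entFin μ (fun ω => fun i : Fin n => f (θ^[i] ω)) / n)) atTop

/-- `μ` is the law of a stationary, irreducible, aperiodic, positive recurrent Markov chain,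
indexed by `ℤ`, on the countable state space `S`. Here `μ {ω 0 = a, ω n = b}` is `π(a) P^n(a,b)`,
and the last condition says that the mean return time to each state is finite. -/
structure IsErgodicMarkov {S : Type*} [Countable S] [MeasurableSpace S]
    [MeasurableSingletonClass S] (μ : Measure (ℤ → S)) : Prop where
  prob : IsProbabilityMeasure μ
  stationary : μ.map shift = μ
  markov : ∃ P : S → S → ℝ, (∀ a b, 0 ≤ P a b) ∧ (∀ a, HasSum (P a) 1) ∧
    ∀ (k : ℤ) (n : ℕ) (x : ℕ → S), μ.real {ω | ∀ i : ℕ, i ≤ n + 1 → ω (k + i) = x i} =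
      μ.real {ω | ∀ i : ℕ, i ≤ n → ω (k + i) = x i} * P (x n) (x (n + 1))
  irreducible : ∀ a b, ∃ n : ℕ, 0 < μ {ω | ω 0 = a ∧ ω n = b}
  aperiodic : ∀ (a : S) (d : ℕ), (∀ n : ℕ, 1 ≤ n → 0 < μ {ω | ω 0 = a ∧ ω n = a} → d ∣ n) → d = 1
  recurrent : ∀ a, Summable fun n : ℕ =>
    μ.real {ω | ω 0 = a ∧ ∀ i : ℕ, 1 ≤ i → i ≤ n → ω i ≠ a}

/-- Exponential return times: for some state `s` of positive mass,
`P(τ_s > n | M_0 = s) ≤ C exp (-c n)` for all `n`. -/
def HasExpReturnTimes {S : Type*} [MeasurableSpace S] (μ : Measure (ℤ → S)) : Prop :=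
  ∃ (s : S) (C c : ℝ), 0 < C ∧ 0 < c ∧ 0 < μ.real {ω | ω 0 = s} ∧ ∀ n : ℕ,
    μ.real {ω | ω 0 = s ∧ ∀ i : ℕ, 1 ≤ i → i ≤ n → ω i ≠ s} ≤
      C * Real.exp (-(c * n)) * μ.real {ω | ω 0 = s}

/-- `φ` is a finitary factor map from the shift-invariant law `ν` on `ℤ → T` onto the law `μ` on
`ℤ → S`, and its coding window `R` satisfies `ν (R > r) ≤ g r` for all `r`. Here `R y ≤ r` means:
every `y'` (of a fixed set `G` of full measure) which agrees with `y` on `[-r, r]` has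
`φ y' 0 = φ y 0`. -/
structure IsFinitaryFactor {T S : Type*} [MeasurableSpace T] [MeasurableSpace S]
    (ν : Measure (ℤ → T)) (μ : Measure (ℤ → S)) (φ : (ℤ → T) → (ℤ → S)) (g : ℕ → ℝ) : Prop where
  measurable : Measurable φ
  equivariant : ∀ᵐ y ∂ν, φ (shift y) = shift (φ y)
  law : ν.map φ = μ
  window : ∃ G : Set (ℤ → T), (∀ᵐ y ∂ν, y ∈ G) ∧ ∀ r : ℕ,
    ν {y | y ∈ G ∧ ∃ y' ∈ G, (∀ i : ℤ, |i| ≤ r → y' i = y i) ∧ φ y' 0 ≠ φ y 0} ≤
      ENNReal.ofReal (g r)

end Pool.Agent.Y978.MG
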