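import Mathlib
import Pool.Agent.Y978.MG.Defs

set_option autoImplicit false

open MeasureTheory Filter
open scoped ENNReal Topology

namespace Pool.Agent.Y978.MG

theorem measurable_shift {T : Type*} [MeasurableSpace T] :
    Measurable (shift : (ℤ → T) → (ℤ → T)) := by
  unfold shift; fun_prop

theorem shift_iterate {T : Type*} (n : ℕ) (y : ℤ → T) (i : ℤ) :
    (shift^[n] y) i = y (i + n) := by
  induction n generalizing y i with
  | zero => simp
  | succ n ih =>
    rw [Function.iterate_succ_apply, ih]
    simp only [shift]
    congr 1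
    push_cast
    ring

theorem shift_mp {T : Type*} [MeasurableSpace T] (τ : Measure T) [IsProbabilityMeasure τ] :
    MeasurePreserving (shift : (ℤ → T) → (ℤ → T)) (Measure.infinitePi fun _ : ℤ => τ)
      (Measure.infinitePi fun _ : ℤ => τ) := by
  refine ⟨measurable_shift, ?_⟩
  refine Measure.eq_infinitePi _ fun s t ht => ?_
  rw [Measure.map_apply measurable_shift (MeasurableSet.pi s.countable_toSet fun i _ => ht i)]
  have h1 : (shift : (ℤ → T) → (ℤ → T)) ⁻¹' ((s : Set ℤ).pi t) =
      ((s.map (addRightEmbedding (1 : ℤ)) : Finset ℤ) : Set ℤ).pi (fun j => t (j - 1)) := by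
    ext y
    simp only [Set.mem_preimage, Set.mem_pi, Finset.mem_coe, Finset.mem_map,
      addRightEmbedding_apply, shift]
    constructor
    · rintro h j ⟨i, hi, rfl⟩
      simpa using h i hi
    · intro h i hi
      have := h (i + 1) ⟨i, hi, rfl⟩
      simpa using this
  rw [h1, Measure.infinitePi_pi _ (fun i _ => ht (i - 1))]
  rw [Finset.prod_map]
  simp

end Pool.Agent.Y978.MG
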