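import Mathlib
import Pool.Agent.Y978.MG.Shift

set_option autoImplicit false

open MeasureTheory Filter
open scoped ENNReal Topology

namespace Pool.Agent.Y978.MG

section Fin

variable {Ω κ : Type*} [MeasurableSpace Ω] [Fintype κ] [MeasurableSpace κ]
  [MeasurableSingletonClass κ]

theorem integral_comp_fin (μ : Measure Ω) [IsProbabilityMeasure μ] (f : Ω → κ)
    (hf : Measurable f) (G : κ → ℝ) :
    Integrable (fun ω => G (f ω)) μ ∧ ∫ ω, G (f ω) ∂μ = ∑ i, μ.real (f ⁻¹' {i}) * G i := by
  have hG : Measurable G := measurable_of_countable G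
  have : IsProbabilityMeasure (μ.map f) := Measure.isProbabilityMeasure_map hf.aemeasurable
  have hi : Integrable G (μ.map f) := Integrable.of_finite
  refine ⟨hi.comp_measurable hf, ?_⟩
  rw [← integral_map hf.aemeasurable hi.aestronglyMeasurable, integral_fintype hi]
  refine Finset.sum_congr rfl fun i _ => ?_
  rw [map_measureReal_apply hf (measurableSet_singleton i), smul_eq_mul]

theorem entFin_eq_integral (μ : Measure Ω) [IsProbabilityMeasure μ] (f : Ω → κ)
    (hf : Measurable f) :
    entFin μ f = ∫ ω, -Real.log (μ.real (f ⁻¹' {f ω})) ∂μ := by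
  rw [(integral_comp_fin μ f hf (fun i => -Real.log (μ.real (f ⁻¹' {i})))).2, entFin]
  refine Finset.sum_congr rfl fun i _ => ?_
  rw [Real.negMulLog]
  ring

omit [MeasurableSpace κ] [MeasurableSingletonClass κ] in
theorem ae_cell_pos (μ : Measure Ω) [IsProbabilityMeasure μ] (f : Ω → κ) :
    ∀ᵐ ω ∂μ, 0 < μ.real (f ⁻¹' {f ω}) := by
  rw [ae_iff]
  have hsub : {ω | ¬ 0 < μ.real (f ⁻¹' {f ω})} ⊆
      ⋃ i ∈ {i : κ | μ (f ⁻¹' {i}) = 0}, f ⁻¹' {i} := by
    intro ω hω
    simp only [Set.mem_ofPred_eq, not_lt] at hω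
    simp only [Set.mem_iUnion, Set.mem_ofPred_eq]
    refine ⟨f ω, ?_, rfl⟩
    have h1 : μ.real (f ⁻¹' {f ω}) = 0 := le_antisymm hω measureReal_nonneg
    rwa [measureReal_eq_zero_iff] at h1
  refine measure_mono_null hsub ?_
  rw [measure_biUnion_null_iff (Set.to_countable _)]
  intro i hi
  exact hi

/-- Gibbs inequality. -/
theorem entFin_le (μ : Measure Ω) [IsProbabilityMeasure μ] (f : Ω → κ)
    (hf : Measurable f) (q : κ → ℝ) (hq0 : ∀ i, 0 ≤ q i) (hq1 : ∑ i, q i ≤ 1)
    (hq : ∀ᵐ ω ∂μ, 0 < q (f ω)) :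
    entFin μ f ≤ ∫ ω, -Real.log (q (f ω)) ∂μ := by
  rw [(integral_comp_fin μ f hf (fun i => -Real.log (q i))).2, entFin]
  have hsum1 : ∑ i, μ.real (f ⁻¹' {i}) = 1 := by
    have := (integral_comp_fin μ f hf (fun _ => (1 : ℝ))).2
    simp only [integral_const, probReal_univ, smul_eq_mul, mul_one] at this
    exact this.symm
  have hterm : ∀ i, Real.negMulLog (μ.real (f ⁻¹' {i})) ≤
      μ.real (f ⁻¹' {i}) * -Real.log (q i) + (q i - μ.real (f ⁻¹' {i})) := by
    intro i
    rcases (measureReal_nonneg : 0 ≤ μ.real (f ⁻¹' {i})).eq_or_lt with h0 | hpos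
    · rw [← h0]; simp [hq0 i]
    · have hqi : 0 < q i := by
        by_contra hneg
        have h1 : μ (f ⁻¹' {i}) = 0 := by
          refine measure_mono_null ?_ (ae_iff.mp hq)
          intro ω hω
          rw [Set.mem_preimage, Set.mem_singleton_iff] at hω
          rw [Set.mem_ofPred_eq, hω]
          exact hneg
        have h2 : μ.real (f ⁻¹' {i}) = 0 := by rw [measureReal_def, h1]; rfl
        exact hpos.ne' h2
      set p := μ.real (f ⁻¹' {i}) with hp
      have h3 : Real.log (q i / p) ≤ q i / p - 1 := Real.log_le_sub_one_of_pos (by positivity)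
      rw [Real.log_div hqi.ne' hpos.ne'] at h3
      have h4 := mul_le_mul_of_nonneg_left h3 hpos.le
      have h5 : p * (q i / p - 1) = q i - p := by field_simp
      rw [h5] at h4
      rw [Real.negMulLog]
      linarith
  calc ∑ i, Real.negMulLog (μ.real (f ⁻¹' {i}))
      ≤ ∑ i, (μ.real (f ⁻¹' {i}) * -Real.log (q i) + (q i - μ.real (f ⁻¹' {i}))) :=
        Finset.sum_le_sum fun i _ => hterm i
    _ = ∑ i, μ.real (f ⁻¹' {i}) * -Real.log (q i) + (∑ i, q i - 1) := by
        rw [Finset.sum_add_distrib, Finset.sum_sub_distrib, hsum1]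
    _ ≤ _ := by linarith

end Fin

section Iid

variable {T : Type*} [MeasurableSpace T]

theorem entFin_block (τ : Measure T) [IsProbabilityMeasure τ] {k : ℕ} (f : T → Fin k)
    (hf : Measurable f) (n : ℕ) :
    entFin (Measure.infinitePi fun _ : ℤ => τ) (fun y : ℤ → T => fun i : Fin n => f (y i)) =
      n * entFin τ f := by
  set ν : Measure (ℤ → T) := Measure.infinitePi fun _ : ℤ => τ with hν
  have hF : Measurable (fun y : ℤ → T => fun i : Fin n => f (y i)) := by
    rw [measurable_pi_iff]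
    intro i
    exact hf.comp (measurable_pi_apply _)
  rw [entFin_eq_integral ν _ hF, entFin_eq_integral τ f hf]
  have hcell : ∀ y : ℤ → T, ν.real ((fun y : ℤ → T => fun i : Fin n => f (y i)) ⁻¹'
      {fun i : Fin n => f (y i)}) = ∏ i ∈ Finset.range n, τ.real (f ⁻¹' {f (y i)}) := by
    intro y
    have h1 : (fun y : ℤ → T => fun i : Fin n => f (y i)) ⁻¹' {fun i : Fin n => f (y i)} =
        (((Finset.range n).map Nat.castEmbedding : Finset ℤ) : Set ℤ).pi
          (fun j => f ⁻¹' {f (y j)}) := by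
      ext y'
      simp only [Set.mem_preimage, Set.mem_singleton_iff, Set.mem_pi, Finset.mem_coe,
        Finset.mem_map, Finset.mem_range, Nat.castEmbedding_apply]
      constructor
      · rintro h j ⟨i, hi, rfl⟩
        exact congrFun h ⟨i, hi⟩
      · intro h
        funext i
        exact h i ⟨i, i.2, rfl⟩
    rw [h1, measureReal_def, Measure.infinitePi_pi _
      (fun i _ => hf (measurableSet_singleton _)), Finset.prod_map, ENNReal.toReal_prod]
    rfl
  have hpos : ∀ᵐ y ∂ν, ∀ i : ℤ, 0 < τ.real (f ⁻¹' {f (y i)}) := by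
    rw [ae_all_iff]
    intro i
    exact (measurePreserving_eval_infinitePi (fun _ : ℤ => τ) i).quasiMeasurePreserving.ae
      (ae_cell_pos τ f)
  have hae : ∀ᵐ y ∂ν, -Real.log (ν.real ((fun y : ℤ → T => fun i : Fin n => f (y i)) ⁻¹'
      {fun i : Fin n => f (y i)})) =
      ∑ i ∈ Finset.range n, -Real.log (τ.real (f ⁻¹' {f (y i)})) := by
    filter_upwards [hpos] with y hy
    rw [hcell, Real.log_prod (fun (i : ℕ) _ => (hy (i : ℤ)).ne'), Finset.sum_neg_distrib]
  rw [integral_congr_ae hae]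
  have hi := integral_comp_fin τ f hf (fun i => -Real.log (τ.real (f ⁻¹' {i})))
  rw [integral_finsetSum]
  · have : ∀ i ∈ Finset.range n, ∫ y : ℤ → T, -Real.log (τ.real (f ⁻¹' {f (y i)})) ∂ν =
        ∫ t, -Real.log (τ.real (f ⁻¹' {f t})) ∂τ := by
      intro i _
      have hmp := measurePreserving_eval_infinitePi (fun _ : ℤ => τ) (i : ℤ)
      have h1 : ∫ b, (fun t => -Real.log (τ.real (f ⁻¹' {f t}))) b ∂(ν.map (Function.eval (i : ℤ)))
          = ∫ a, (fun t => -Real.log (τ.real (f ⁻¹' {f t}))) (Function.eval (i : ℤ) a) ∂ν :=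
        integral_map hmp.measurable.aemeasurable (by
          rw [hmp.map_eq]; exact hi.1.aestronglyMeasurable)
      rw [hmp.map_eq] at h1
      exact h1.symm
    rw [Finset.sum_congr rfl this]
    simp
  · intro i _
    exact (measurePreserving_eval_infinitePi (fun _ : ℤ => τ) (i : ℤ)).integrable_comp_of_integrable
      hi.1

theorem le_ksEntropy (τ : Measure T) [IsProbabilityMeasure τ] {k : ℕ} (f : T → Fin k)
    (hf : Measurable f) :
    ENNReal.ofReal (entFin τ f) ≤ ksEntropy (Measure.infinitePi fun _ : ℤ => τ) shift := by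
  unfold ksEntropy
  refine le_iSup_of_le k (le_iSup_of_le (fun y : ℤ → T => f (y 0))
    (le_iSup_of_le (hf.comp (measurable_pi_apply 0)) ?_))
  have h1 : ∀ n : ℕ, (fun ω : ℤ → T => fun i : Fin n => f ((shift^[i] ω) 0)) =
      (fun y : ℤ → T => fun i : Fin n => f (y i)) := by
    intro n
    funext y i
    rw [shift_iterate]
    simp
  have h2 : (fun n : ℕ => ENNReal.ofReal (entFin (Measure.infinitePi fun _ : ℤ => τ)
      (fun ω : ℤ → T => fun i : Fin n => f ((shift^[i] ω) 0)) / n)) =ᶠ[atTop]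
      (fun _ => ENNReal.ofReal (entFin τ f)) := by
    filter_upwards [eventually_gt_atTop 0] with n hn
    rw [h1 n, entFin_block τ f hf n]
    congr 1
    field_simp
  rw [limsup_congr h2]
  simp

end Iid

end Pool.Agent.Y978.MG
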