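import Mathlib
import Pool.Agent.Y978.MG.Ent

set_option autoImplicit false

open MeasureTheory Filter
open scoped ENNReal Topology

namespace Pool.Agent.Y978.MG

theorem entropy_atomic {T : Type*} [MeasurableSpace T] [StandardBorelSpace T] (τ : Measure T)
    [IsProbabilityMeasure τ] (h : ℝ) (hh : 0 ≤ h)
    (hks : ksEntropy (Measure.infinitePi fun _ : ℤ => τ) shift ≤ ENNReal.ofReal h) :
    (∀ᵐ t ∂τ, τ {t} ≠ 0) ∧ Measurable (fun t => -Real.log (τ.real {t})) ∧
    Integrable (fun t => -Real.log (τ.real {t})) τ ∧ ∫ t, -Real.log (τ.real {t}) ∂τ ≤ h := by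
  classical
  obtain ⟨S, hSm, hSsep⟩ := exists_seq_separating T (p := MeasurableSet) MeasurableSet.empty
    Set.univ
  set F0 : (n : ℕ) → T → (Fin n → Bool) := fun n t i => decide (t ∈ S i) with hF0
  set F : (n : ℕ) → T → Fin (Fintype.card (Fin n → Bool)) :=
    fun n t => Fintype.equivFin (Fin n → Bool) (F0 n t) with hF
  have hF0m : ∀ n, Measurable (F0 n) := by
    intro n
    rw [measurable_pi_iff]
    intro i
    refine measurable_to_bool ?_
    have : (fun t => F0 n t i) ⁻¹' {true} = S i := by
      ext t; simp [hF0]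
    rw [this]
    exact hSm i
  have hFm : ∀ n, Measurable (F n) := fun n =>
    (measurable_of_countable (Fintype.equivFin (Fin n → Bool))).comp (hF0m n)
  set cell : ℕ → T → Set T := fun n t => F n ⁻¹' {F n t} with hcell
  have hcell' : ∀ n t, cell n t = {t' | ∀ i < n, t' ∈ S i ↔ t ∈ S i} := by
    intro n t
    ext t'
    simp only [hcell, hF, Set.mem_preimage, Set.mem_singleton_iff, EmbeddingLike.apply_eq_iff_eq,
      Set.mem_ofPred_eq, hF0]
    constructor
    · intro h1 i hi
      have := congrFun h1 ⟨i, hi⟩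
      simpa using this
    · intro h1
      funext i
      have := h1 i i.2
      simpa using this
  have hcellm : ∀ n t, MeasurableSet (cell n t) := fun n t => hFm n (measurableSet_singleton _)
  have hanti : ∀ t, Antitone fun n => cell n t := by
    intro t a b hab
    simp only [hcell', Set.le_eq_subset, Set.ofPred_subset_ofPred]
    intro t' h1 i hi
    exact h1 i (lt_of_lt_of_le hi hab)
  have hinter : ∀ t, ⋂ n, cell n t = {t} := by
    intro t
    ext t'
    simp only [hcell', Set.mem_iInter, Set.mem_ofPred_eq, Set.mem_singleton_iff]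
    constructor
    · intro h1
      exact hSsep t' (Set.mem_univ _) t (Set.mem_univ _) fun n => h1 (n + 1) n (Nat.lt_succ_self n)
    · rintro rfl n i hi
      exact Iff.rfl
  have hlim : ∀ t, Tendsto (fun n => τ (cell n t)) atTop (𝓝 (τ {t})) := by
    intro t
    rw [← hinter t]
    exact tendsto_measure_iInter_atTop (fun n => (hcellm n t).nullMeasurableSet) (hanti t)
      ⟨0, measure_ne_top _ _⟩
  have hlimr : ∀ t, Tendsto (fun n => τ.real (cell n t)) atTop (𝓝 (τ.real {t})) := by
    intro t
    exact (ENNReal.tendsto_toReal (measure_ne_top _ _)).comp (hlim t)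
  have hmeasn : ∀ n, Measurable fun t => τ.real (cell n t) := by
    intro n
    have : (fun t => τ.real (cell n t)) = (fun i => τ.real (F n ⁻¹' {i})) ∘ F n := rfl
    rw [this]
    exact (measurable_of_countable _).comp (hFm n)
  have hmeas0 : Measurable fun t => τ.real {t} :=
    measurable_of_tendsto_metrizable hmeasn (tendsto_pi_nhds.mpr hlimr)
  have hmeas : Measurable fun t => -Real.log (τ.real {t}) := by fun_prop
  have hposall : ∀ᵐ t ∂τ, ∀ n, 0 < τ.real (cell n t) := by
    rw [ae_all_iff]
    intro n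
    exact ae_cell_pos τ (F n)
  have hle1 : ∀ s : Set T, τ.real s ≤ 1 := fun s => measureReal_le_one
  set Gn : ℕ → T → ℝ≥0∞ := fun n t => ENNReal.ofReal (-Real.log (τ.real (cell n t))) with hGn
  have hGm : ∀ n, Measurable (Gn n) := by
    intro n
    have := hmeasn n
    simp only [hGn]
    fun_prop
  have hGint : ∀ n, ∫⁻ t, Gn n t ∂τ ≤ ENNReal.ofReal h := by
    intro n
    have h1 := integral_comp_fin τ (F n) (hFm n) (fun i => -Real.log (τ.real (F n ⁻¹' {i})))
    have h2 := ofReal_integral_eq_lintegral_ofReal h1.1 (ae_of_all _ fun t => by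
      simp only [Pi.zero_apply, Left.nonneg_neg_iff]
      exact Real.log_nonpos measureReal_nonneg (hle1 _))
    have h3 := entFin_eq_integral τ (F n) (hFm n)
    have h4 := le_ksEntropy τ (F n) (hFm n)
    rw [h3, h2] at h4
    exact le_trans h4 hks
  have hfatou : ∫⁻ t, liminf (fun n => Gn n t) atTop ∂τ ≤ ENNReal.ofReal h := by
    refine le_trans (lintegral_liminf_le hGm) ?_
    have : liminf (fun n => ∫⁻ a, Gn n a ∂τ) atTop ≤ liminf (fun _ : ℕ => ENNReal.ofReal h) atTop :=
      liminf_le_liminf (Eventually.of_forall hGint)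
    simpa using this
  have hlt : ∀ᵐ t ∂τ, liminf (fun n => Gn n t) atTop < ∞ :=
    ae_lt_top (Measurable.liminf hGm) (ne_top_of_le_ne_top ENNReal.ofReal_ne_top hfatou)
  have hat : ∀ᵐ t ∂τ, τ {t} ≠ 0 := by
    filter_upwards [hlt, hposall] with t ht hpos h0
    have h1 : Tendsto (fun n => τ.real (cell n t)) atTop (𝓝[>] 0) := by
      rw [tendsto_nhdsWithin_iff]
      refine ⟨?_, Eventually.of_forall hpos⟩
      have := hlimr t
      rwa [measureReal_def, h0] at this
    have h2 : Tendsto (fun n => -Real.log (τ.real (cell n t))) atTop atTop :=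
      tendsto_neg_atBot_atTop.comp (Real.tendsto_log_nhdsGT_zero.comp h1)
    have h3 : Tendsto (fun n => Gn n t) atTop (𝓝 ∞) := ENNReal.tendsto_ofReal_nhds_top.2 h2
    rw [h3.liminf_eq] at ht
    exact lt_irrefl _ ht
  have hlimG : ∀ᵐ t ∂τ, liminf (fun n => Gn n t) atTop =
      ENNReal.ofReal (-Real.log (τ.real {t})) := by
    filter_upwards [hat] with t ht
    have hpos : 0 < τ.real {t} := ENNReal.toReal_pos ht (measure_ne_top _ _)
    have h3 : Tendsto (fun n => Gn n t) atTop (𝓝 (ENNReal.ofReal (-Real.log (τ.real {t})))) := by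
      refine ENNReal.tendsto_ofReal (Tendsto.neg ?_)
      exact (Real.continuousAt_log hpos.ne').tendsto.comp (hlimr t)
    exact h3.liminf_eq
  rw [lintegral_congr_ae hlimG] at hfatou
  have hnn : ∀ t, 0 ≤ -Real.log (τ.real {t}) := by
    intro t
    rw [Left.nonneg_neg_iff]
    exact Real.log_nonpos measureReal_nonneg (hle1 _)
  have hint : Integrable (fun t => -Real.log (τ.real {t})) τ := by
    refine ⟨hmeas.aestronglyMeasurable, ?_⟩
    rw [hasFiniteIntegral_iff_ofReal (ae_of_all _ hnn)]
    exact lt_of_le_of_lt hfatou ENNReal.ofReal_lt_top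
  refine ⟨hat, hmeas, hint, ?_⟩
  rw [← ofReal_integral_eq_lintegral_ofReal hint (ae_of_all _ hnn)] at hfatou
  rwa [ENNReal.ofReal_le_ofReal_iff hh] at hfatou

end Pool.Agent.Y978.MG
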