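import Mathlib

set_option autoImplicit false

open MeasureTheory ProbabilityTheory Filter
open scoped ENNReal Topology

namespace Pool.Agent.Y978.MG

/-- Under a product measure disjoint blocks of coordinates are independent (same proof as
`Pool.Agent.H443R3.FC.indepFun_infinitePi`). -/
theorem indepFun_blocks {S α : Type*} [MeasurableSpace α] (τ : Measure α)
    [IsProbabilityMeasure τ] {A B : Set S} (hAB : Disjoint A B) :
    IndepFun (fun (x : S → α) (i : A) => x i) (fun (x : S → α) (i : B) => x i)
      (Measure.infinitePi fun _ : S => τ) := by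
  classical
  apply IndepFun.process_indepFun_process
    (X := fun (i : A) (x : S → α) => x i) (Y := fun (i : B) (x : S → α) => x i)
    (fun i => measurable_pi_apply _) (fun i => measurable_pi_apply _)
  intro I J
  have hi : iIndepFun (fun (i : S) (x : S → α) => x i) (Measure.infinitePi fun _ : S => τ) :=
    iIndepFun_infinitePi (P := fun _ : S => τ) (X := fun _ x => x) (fun _ => measurable_id)
  have hd : Disjoint (I.map (Function.Embedding.subtype _))
      (J.map (Function.Embedding.subtype _)) := by
    rw [Finset.disjoint_left]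
    intro a ha hb
    rw [Finset.mem_map] at ha hb
    obtain ⟨⟨x, hx⟩, _, rfl⟩ := ha
    obtain ⟨⟨y, hy⟩, _, h⟩ := hb
    simp only [Function.Embedding.subtype_apply] at h
    subst h
    exact Set.disjoint_left.1 hAB hx hy
  have := hi.indepFun_finset _ _ hd (fun i => measurable_pi_apply i)
  have e1 : (fun (x : S → α) (i : I) => x ((i : A) : S)) =
      (fun (z : (I.map (Function.Embedding.subtype (· ∈ A))) → α) (i : I) =>
        z ⟨((i : A) : S), Finset.mem_map_of_mem (Function.Embedding.subtype (· ∈ A)) i.2⟩) ∘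
      (fun (x : S → α) (i : (I.map (Function.Embedding.subtype (· ∈ A)))) => x i) := by
    funext x i
    rfl
  have e2 : (fun (x : S → α) (i : J) => x ((i : B) : S)) =
      (fun (z : (J.map (Function.Embedding.subtype (· ∈ B))) → α) (i : J) =>
        z ⟨((i : B) : S), Finset.mem_map_of_mem (Function.Embedding.subtype (· ∈ B)) i.2⟩) ∘
      (fun (x : S → α) (i : (J.map (Function.Embedding.subtype (· ∈ B)))) => x i) := by
    funext x i
    rfl
  rw [e1, e2]
  exact this.comp (by fun_prop) (by fun_prop)

theorem indep_next {α : Type*} [MeasurableSpace α] [Nonempty α] (β : Measure α)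
    [IsProbabilityMeasure β] (b : ℤ)
    (A : Set (ℤ → α)) (hA : MeasurableSet A)
    (hdep : ∀ ξ ξ' : ℤ → α, (∀ j < b, ξ j = ξ' j) → ξ ∈ A → ξ' ∈ A)
    (E : Set α) (hE : MeasurableSet E) :
    (Measure.infinitePi fun _ : ℤ => β) (A ∩ {ξ | ξ b ∈ E}) =
      (Measure.infinitePi fun _ : ℤ => β) A * β E := by
  classical
  obtain ⟨a0⟩ := ‹Nonempty α›
  have hd : Disjoint {j : ℤ | j < b} {j : ℤ | j = b} := by
    rw [Set.disjoint_left]
    intro j hj hj'
    simp only [Set.mem_ofPred_eq] at hj hj'
    omega
  have hind := indepFun_blocks β hd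
  set A' : Set ({j : ℤ | j < b} → α) :=
    {z | (fun i : ℤ => if h : i < b then z ⟨i, h⟩ else a0) ∈ A} with hA'
  have m1 : MeasurableSet A' := by
    have : Measurable (fun z : ({j : ℤ | j < b} → α) =>
        (fun i : ℤ => if h : i < b then z ⟨i, h⟩ else a0)) := by
      rw [measurable_pi_iff]
      intro i
      by_cases hi : i < b
      · simp only [dif_pos hi]; exact measurable_pi_apply _
      · simp only [dif_neg hi]; exact measurable_const
    exact this hA
  have m2 : MeasurableSet {z : ({j : ℤ | j = b} → α) | z ⟨b, rfl⟩ ∈ E} :=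
    (measurable_pi_apply (⟨b, rfl⟩ : {j : ℤ | j = b})) hE
  have h1 := hind.measure_inter_preimage_eq_mul _ _ m1 m2
  have e1 : (fun (x : ℤ → α) (i : {j : ℤ | j < b}) => x i) ⁻¹' A' = A := by
    ext ξ
    simp only [Set.mem_preimage, hA', Set.mem_ofPred_eq]
    constructor
    · intro h
      refine hdep _ _ ?_ h
      intro j hj
      simp [hj]
    · intro h
      refine hdep _ _ ?_ h
      intro j hj
      simp [hj]
  have e2 : (fun (x : ℤ → α) (i : {j : ℤ | j = b}) => x i) ⁻¹'
      {z : ({j : ℤ | j = b} → α) | z ⟨b, rfl⟩ ∈ E} = {ξ | ξ b ∈ E} := rfl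
  rw [e1, e2] at h1
  rw [h1]
  congr 1
  exact (measurePreserving_eval_infinitePi (fun _ : ℤ => β) b).measure_preimage
    hE.nullMeasurableSet

end Pool.Agent.Y978.MG
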