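import Mathlib
import Pool.Agent.Y978.MG.Shift
import Pool.Agent.Y978.MG.Indep

set_option autoImplicit false

open MeasureTheory Filter
open scoped ENNReal Topology

namespace Pool.Agent.Y978.MG

/-- The inverse of the golden ratio. -/
noncomputable def rho : ℝ := Real.goldenRatio⁻¹

theorem rho_pos : 0 < rho := inv_pos.mpr Real.goldenRatio_pos

theorem rho_sq : rho ^ 2 = 1 - rho := by
  have h := Real.goldenRatio_sq
  have h0 := Real.goldenRatio_pos
  have h1 : rho * Real.goldenRatio = 1 := inv_mul_cancel₀ h0.ne'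
  have h2 : rho ^ 2 * Real.goldenRatio ^ 2 = 1 := by rw [← mul_pow, h1, one_pow]
  have h3 : (rho ^ 2 - (1 - rho)) * Real.goldenRatio ^ 2 = 0 := by
    have : rho * Real.goldenRatio ^ 2 = Real.goldenRatio := by
      rw [pow_two, ← mul_assoc, h1, one_mul]
    rw [sub_mul, h2, sub_mul, this]
    linarith
  rcases mul_eq_zero.mp h3 with h4 | h4
  · linarith
  · exact absurd h4 (by positivity)

theorem rho_lt_one : rho < 1 := by
  have h := rho_sq
  have h0 := rho_pos
  nlinarith [sq_nonneg rho]

theorem half_lt_rho : 1 / 2 < rho := by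
  have h := rho_sq
  have h0 := rho_pos
  have h1 := rho_lt_one
  nlinarith

/-- The law of the bits. -/
noncomputable def beta : Measure Bool :=
  ENNReal.ofReal rho • Measure.dirac false + ENNReal.ofReal (1 - rho) • Measure.dirac true

theorem beta_false : beta {false} = ENNReal.ofReal rho := by
  simp [beta]

theorem beta_true : beta {true} = ENNReal.ofReal (1 - rho) := by
  simp [beta]

instance : IsProbabilityMeasure beta := by
  constructor
  simp only [beta, Measure.coe_add, Measure.coe_smul, Pi.add_apply, Pi.smul_apply, measure_univ,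
    smul_eq_mul, mul_one]
  rw [← ENNReal.ofReal_add rho_pos.le (by linarith [rho_lt_one])]
  simp

/-- The law of an i.i.d. sequence of bits. -/
noncomputable def lam : Measure (ℤ → Bool) := Measure.infinitePi fun _ : ℤ => beta

instance : IsProbabilityMeasure lam := by unfold lam; infer_instance

/-- The number of consecutive `true` ending at `i` is odd. -/
def oddRun (ξ : ℤ → Bool) (i : ℤ) : Prop :=
  ∃ k : ℕ, (∀ j : ℕ, j ≤ 2 * k → ξ (i - j) = true) ∧ ξ (i - ((2 * k + 1 : ℕ) : ℤ)) = false

open Classical in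
/-- The factor map. -/
noncomputable def gm (ξ : ℤ → Bool) : ℤ → Bool := fun i => decide (oddRun ξ i)

/-- The law of the golden mean chain. -/
noncomputable def mu : Measure (ℤ → Bool) := lam.map gm

theorem measurable_gm : Measurable gm := by
  rw [measurable_pi_iff]
  intro i
  refine measurable_to_bool ?_
  have : (fun ξ => gm ξ i) ⁻¹' {true} = ⋃ k : ℕ, (⋂ j ∈ Finset.range (2 * k + 1),
      (fun ξ : ℤ → Bool => ξ (i - ((j : ℕ) : ℤ))) ⁻¹' {true}) ∩
      (fun ξ : ℤ → Bool => ξ (i - ((2 * k + 1 : ℕ) : ℤ))) ⁻¹' {false} := by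
    ext ξ
    simp only [gm, oddRun, Set.mem_preimage, Set.mem_singleton_iff, decide_eq_true_eq,
      Set.mem_iUnion, Set.mem_inter_iff, Set.mem_iInter, Finset.mem_range, Nat.lt_succ_iff]
  rw [this]
  refine MeasurableSet.iUnion fun k => MeasurableSet.inter ?_ ?_
  · exact Finset.measurableSet_biInter _ fun j _ =>
      (measurable_pi_apply _) (measurableSet_singleton _)
  · exact (measurable_pi_apply _) (measurableSet_singleton _)

instance : IsProbabilityMeasure mu := Measure.isProbabilityMeasure_map measurable_gm.aemeasurable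

theorem gm_shift (ξ : ℤ → Bool) : gm (shift ξ) = shift (gm ξ) := by
  funext i
  have h : oddRun (shift ξ) i ↔ oddRun ξ (i + 1) := by
    simp only [oddRun, shift]
    have e : ∀ j : ℤ, i - j + 1 = i + 1 - j := fun j => by ring
    simp only [e]
  simp only [gm, shift]
  exact decide_eq_decide.mpr h

theorem mu_shift : MeasurePreserving (shift : (ℤ → Bool) → (ℤ → Bool)) mu mu := by
  refine ⟨measurable_shift, ?_⟩
  unfold mu
  rw [Measure.map_map measurable_shift measurable_gm]
  have : (shift : (ℤ → Bool) → (ℤ → Bool)) ∘ gm = gm ∘ shift := by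
    funext ξ
    exact (gm_shift ξ).symm
  rw [this, ← Measure.map_map measurable_gm measurable_shift]
  unfold lam
  rw [(shift_mp beta).map_eq]

theorem oddRun_iff (ξ : ℤ → Bool) (i : ℤ) (d : ℕ) (hd : ξ (i - d) = false)
    (hlt : ∀ j : ℕ, j < d → ξ (i - j) = true) : oddRun ξ i ↔ Odd d := by
  constructor
  · rintro ⟨k, h1, h2⟩
    refine ⟨k, ?_⟩
    have h3 : 2 * k < d := by
      by_contra h
      have := h1 d (by omega)
      rw [hd] at this
      exact Bool.noConfusion this
    have h4 : ¬ 2 * k + 1 < d := by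
      intro h
      have := hlt _ h
      rw [h2] at this
      exact Bool.noConfusion this
    omega
  · rintro ⟨k, rfl⟩
    exact ⟨k, fun j hj => hlt j (by omega), hd⟩

theorem gm_rec (ξ : ℤ → Bool) (i : ℤ) (h : ∃ j : ℕ, ξ (i - 1 - j) = false) :
    gm ξ i = (ξ i && !(gm ξ (i - 1))) := by
  classical
  by_cases hi : ξ i = true
  · obtain ⟨d, hd, hlt⟩ : ∃ d : ℕ, ξ (i - 1 - d) = false ∧
        ∀ j : ℕ, j < d → ξ (i - 1 - j) = true := by
      refine ⟨Nat.find h, Nat.find_spec h, ?_⟩
      intro j hj
      have := Nat.find_min h hj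
      simpa using this
    have h1 := oddRun_iff ξ (i - 1) d hd hlt
    have h2 := oddRun_iff ξ i (d + 1) (by
      rw [← hd]; congr 1; push_cast; ring) (by
      intro j hj
      rcases Nat.eq_zero_or_pos j with rfl | hj0
      · simpa using hi
      · obtain ⟨j', rfl⟩ := Nat.exists_eq_succ_of_ne_zero hj0.ne'
        have := hlt j' (by omega)
        rw [← this]; congr 1; push_cast; ring)
    have h3 : oddRun ξ i ↔ ¬ oddRun ξ (i - 1) := by
      rw [h1, h2, Nat.odd_add_one]
    simp only [gm, hi, Bool.true_and]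
    rw [← decide_not]
    exact decide_eq_decide.mpr h3
  · have hi' : ξ i = false := by simpa using hi
    have h3 : ¬ oddRun ξ i := by
      rintro ⟨k, h1, _⟩
      have := h1 0 (by omega)
      simp at this
      exact hi this
    simp [gm, hi', h3]

theorem gm_dep (ξ ξ' : ℤ → Bool) (i : ℤ) (h : ∀ j ≤ i, ξ j = ξ' j) : gm ξ i = gm ξ' i := by
  have h3 : oddRun ξ i ↔ oddRun ξ' i := by
    unfold oddRun
    have e : ∀ j : ℕ, ξ (i - j) = ξ' (i - j) := fun j => h _ (by omega)
    simp only [e]
  simp only [gm]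
  exact decide_eq_decide.mpr h3

theorem ae_exists_false : ∀ᵐ ξ ∂lam, ∀ i : ℤ, ∃ j : ℕ, ξ (i - j) = false := by
  rw [ae_all_iff]
  intro i
  rw [ae_iff]
  have hle : ∀ n : ℕ, lam {ξ | ¬ ∃ j : ℕ, ξ (i - j) = false} ≤ ENNReal.ofReal (1 - rho) ^ n := by
    intro n
    have hinj : Function.Injective (fun j : ℕ => i - (j : ℤ)) := by
      intro a b hab
      simp only at hab
      omega
    have h1 : lam ((((Finset.range n).map ⟨fun j : ℕ => i - (j : ℤ), hinj⟩ : Finset ℤ) :
        Set ℤ).pi fun _ => {true}) = ENNReal.ofReal (1 - rho) ^ n := by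
      unfold lam
      rw [Measure.infinitePi_pi _ (fun i _ => measurableSet_singleton _), Finset.prod_const,
        Finset.card_map, Finset.card_range, beta_true]
    rw [← h1]
    apply measure_mono
    intro ξ hξ
    simp only [Set.mem_ofPred_eq, not_exists, Bool.not_eq_false] at hξ
    intro j hj
    simp only [Finset.coe_map, Function.Embedding.coeFn_mk, Set.mem_image] at hj
    obtain ⟨l, _, rfl⟩ := hj
    exact hξ l
  have hlt : ENNReal.ofReal (1 - rho) < 1 := by
    rw [← ENNReal.ofReal_one]
    exact ENNReal.ofReal_lt_ofReal_iff_of_nonneg (by linarith [rho_lt_one]) |>.mpr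
      (by linarith [rho_pos])
  exact le_antisymm (ge_of_tendsto' (ENNReal.tendsto_pow_atTop_nhds_zero_of_lt_one hlt) hle)
    zero_le

/-- The transition matrix. -/
noncomputable def Pm (a b : Bool) : ℝ :=
  if a = true then (if b = true then 0 else 1) else (if b = true then 1 - rho else rho)

theorem mu_markov (k : ℤ) (n : ℕ) (x : ℕ → Bool) :
    mu {ω | ∀ i : ℕ, i ≤ n + 1 → ω (k + i) = x i} =
      mu {ω | ∀ i : ℕ, i ≤ n → ω (k + i) = x i} * ENNReal.ofReal (Pm (x n) (x (n + 1))) := by
  have hms : ∀ n : ℕ, MeasurableSet {ω : ℤ → Bool | ∀ i : ℕ, i ≤ n → ω (k + i) = x i} := by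
    intro n
    have : {ω : ℤ → Bool | ∀ i : ℕ, i ≤ n → ω (k + i) = x i} =
        ⋂ i ∈ Finset.range (n + 1), (fun ω : ℤ → Bool => ω (k + ((i : ℕ) : ℤ))) ⁻¹' {x i} := by
      ext ω; simp
    rw [this]
    exact Finset.measurableSet_biInter _ fun i _ =>
      (measurable_pi_apply _) (measurableSet_singleton _)
  unfold mu
  rw [Measure.map_apply measurable_gm (hms _), Measure.map_apply measurable_gm (hms _)]
  set A : Set (ℤ → Bool) := gm ⁻¹' {ω | ∀ i : ℕ, i ≤ n → ω (k + i) = x i} with hA
  set E : Set Bool := {v | (v && !(x n)) = x (n + 1)} with hE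
  have hAm : MeasurableSet A := measurable_gm (hms _)
  have hind := indep_next beta (k + ((n + 1 : ℕ) : ℤ)) A hAm (by
    intro ξ ξ' h hξ i hi
    rw [← hξ i hi]
    symm
    apply gm_dep
    intro j hj
    apply h
    push_cast
    omega) E (Set.toFinite E).measurableSet
  have hEβ : beta E = ENNReal.ofReal (Pm (x n) (x (n + 1))) := by
    cases h1 : x n <;> cases h2 : x (n + 1)
    · have : E = {false} := by ext v; simp [hE, h1, h2]
      rw [this, beta_false]; simp [Pm]
    · have : E = {true} := by ext v; simp [hE, h1, h2]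
      rw [this, beta_true]; simp [Pm]
    · have : E = Set.univ := by ext v; simp [hE, h1, h2]
      rw [this, measure_univ]; simp [Pm]
    · have : E = ∅ := by ext v; simp [hE, h1, h2]
      rw [this, measure_empty]; simp [Pm]
  rw [← hEβ]
  unfold lam
  rw [← hind]
  refine measure_congr ?_
  have hae := ae_exists_false
  unfold lam at hae
  filter_upwards [hae] with ξ hξ
  have hrec := gm_rec ξ (k + ((n + 1 : ℕ) : ℤ)) (hξ _)
  have e0 : k + ((n + 1 : ℕ) : ℤ) - 1 = k + (n : ℤ) := by push_cast; ring
  rw [e0] at hrec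
  apply propext
  change (∀ i : ℕ, i ≤ n + 1 → gm ξ (k + i) = x i) ↔
    (∀ i : ℕ, i ≤ n → gm ξ (k + i) = x i) ∧ (ξ (k + ((n + 1 : ℕ) : ℤ)) && !(x n)) = x (n + 1)
  constructor
  · intro h
    refine ⟨fun i hi => h i (by omega), ?_⟩
    rw [← h (n + 1) le_rfl, hrec, h n (by omega)]
  · rintro ⟨h1, h2⟩ i hi
    rcases Nat.lt_or_ge n i with hlt | hge
    · have : i = n + 1 := by omega
      subst this
      rw [hrec, h1 n le_rfl, h2]
    · exact h1 i hge

end Pool.Agent.Y978.MG
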