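import Mathlib
import Pool.Agent.Y978.MG.Chain

set_option autoImplicit false

open MeasureTheory Filter
open scoped ENNReal Topology

namespace Pool.Agent.Y978.MG

/-- The cylinder of a word. -/
def cyl (k : ℤ) (n : ℕ) (x : ℕ → Bool) : Set (ℤ → Bool) := {ω | ∀ i : ℕ, i ≤ n → ω (k + i) = x i}

theorem Pm_nonneg (a b : Bool) : 0 ≤ Pm a b := by
  have h0 := rho_pos
  have h1 := rho_lt_one
  cases a <;> cases b <;> simp [Pm] <;> linarith

theorem mu_real_markov (k : ℤ) (n : ℕ) (x : ℕ → Bool) :
    mu.real (cyl k (n + 1) x) = mu.real (cyl k n x) * Pm (x n) (x (n + 1)) := by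
  rw [measureReal_def, measureReal_def]
  unfold cyl
  rw [mu_markov, ENNReal.toReal_mul, ENNReal.toReal_ofReal (Pm_nonneg _ _)]

/-- The eigenvector. -/
noncomputable def vv (a : Bool) : ℝ := if a = true then rho else 1

theorem vv_pos (a : Bool) : 0 < vv a := by
  have := rho_pos
  cases a <;> simp [vv, this]

theorem vv_le (a : Bool) : vv a ≤ 1 := by
  have := rho_lt_one
  cases a <;> simp [vv, this.le]

theorem le_vv (a : Bool) : rho ≤ vv a := by
  have := rho_lt_one
  cases a <;> simp [vv, this.le]

theorem Pm_le (a b : Bool) : Pm a b ≤ rho * vv b / vv a := by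
  have h0 := rho_pos
  have h1 := rho_sq
  cases a <;> cases b <;> simp only [Pm, vv] <;> simp
  · linarith [pow_two rho]
  · rw [div_self h0.ne']
  · exact h0.le

theorem Pm_eq (a b : Bool) (h : ¬ (a = true ∧ b = true)) : Pm a b = rho * vv b / vv a := by
  have h0 := rho_pos
  have h1 := rho_sq
  cases a <;> cases b <;> simp only [Pm, vv] <;> simp at h ⊢
  · linarith [pow_two rho]
  · rw [div_self h0.ne']

theorem cyl_le (k : ℤ) (n : ℕ) (x : ℕ → Bool) :
    mu.real (cyl k n x) ≤ rho ^ n * vv (x n) / vv (x 0) := by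
  have h0 := rho_pos
  induction n with
  | zero =>
    rw [pow_zero, one_mul, div_self (vv_pos _).ne']
    exact measureReal_le_one
  | succ n ih =>
    rw [mu_real_markov]
    calc mu.real (cyl k n x) * Pm (x n) (x (n + 1))
        ≤ (rho ^ n * vv (x n) / vv (x 0)) * (rho * vv (x (n + 1)) / vv (x n)) := by
          have := vv_pos (x n)
          have := vv_pos (x 0)
          exact mul_le_mul ih (Pm_le _ _) (Pm_nonneg _ _) (by positivity)
      _ = rho ^ (n + 1) * vv (x (n + 1)) / vv (x 0) := by
          have := (vv_pos (x n)).ne'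
          have := (vv_pos (x 0)).ne'
          field_simp
          ring

theorem cyl_le' (k : ℤ) (n : ℕ) (x : ℕ → Bool) :
    mu.real (cyl k n x) ≤ rho⁻¹ * rho ^ n := by
  have h0 := rho_pos
  refine le_trans (cyl_le k n x) ?_
  rw [div_eq_mul_inv, mul_comm]
  have h1 : (vv (x 0))⁻¹ ≤ rho⁻¹ := inv_anti₀ h0 (le_vv _)
  have h2 : rho ^ n * vv (x n) ≤ rho ^ n * 1 := by
    have := vv_le (x n)
    gcongr
  rw [mul_one] at h2
  exact mul_le_mul h1 h2 (mul_nonneg (by positivity) (vv_pos _).le) (by positivity)

theorem cyl_ge (k : ℤ) (n : ℕ) (x : ℕ → Bool)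
    (h : ∀ i < n, ¬ (x i = true ∧ x (i + 1) = true)) :
    mu.real (cyl k n x) = mu.real (cyl k 0 x) * (rho ^ n * vv (x n) / vv (x 0)) := by
  induction n with
  | zero =>
    rw [pow_zero, one_mul, div_self (vv_pos _).ne', mul_one]
  | succ n ih =>
    rw [mu_real_markov, ih fun i hi => h i (by omega), Pm_eq _ _ (h n (by omega))]
    have := (vv_pos (x n)).ne'
    have := (vv_pos (x 0)).ne'
    field_simp
    ring

theorem lam_pi (s : Finset ℤ) (x : ℤ → Bool) :
    lam {ξ | ∀ i ∈ s, ξ i = x i} = ∏ i ∈ s, beta {x i} := by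
  have h := Measure.infinitePi_pi (fun _ : ℤ => beta) (s := s) (t := fun i => {x i})
    (fun i _ => measurableSet_singleton _)
  rw [← h]
  rfl

theorem state_ge (k : ℤ) (a : Bool) : (1 - rho) * rho ≤ mu.real {ω | ω k = a} := by
  have h0 := rho_pos
  have h1 := rho_lt_one
  have hms : MeasurableSet {ω : ℤ → Bool | ω k = a} :=
    (measurable_pi_apply k : Measurable fun ω : ℤ → Bool => ω k) (measurableSet_singleton a)
  rw [measureReal_def]
  unfold mu
  rw [Measure.map_apply measurable_gm hms]
  have hle : ENNReal.ofReal ((1 - rho) * rho) ≤ lam (gm ⁻¹' {ω | ω k = a}) := by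
    cases a
    · have h2 : ENNReal.ofReal ((1 - rho) * rho) ≤ ENNReal.ofReal rho := by
        apply ENNReal.ofReal_le_ofReal
        nlinarith
      refine le_trans h2 ?_
      rw [← beta_false]
      have h3 := lam_pi {k} (fun _ => false)
      rw [Finset.prod_singleton] at h3
      rw [← h3]
      apply measure_mono
      intro ξ hξ
      have hk : ξ k = false := hξ k (Finset.mem_singleton_self _)
      change gm ξ k = false
      have h4 : ¬ oddRun ξ k := by
        rw [oddRun_iff ξ k 0 (by simpa using hk) (by simp)]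
        simp
      simp [gm, h4]
    · rw [ENNReal.ofReal_mul (by linarith), ← beta_false, ← beta_true]
      have h3 := lam_pi {k, k - 1} (fun i => decide (i = k))
      rw [Finset.prod_pair (by omega)] at h3
      have e1 : decide (k = k) = true := by simp
      have e2 : decide (k - 1 = k) = false := by simp
      rw [e1, e2] at h3
      rw [← h3]
      apply measure_mono
      intro ξ hξ
      have hk : ξ k = true := by
        have := hξ k (by simp)
        rw [this]; simp
      have hk1 : ξ (k - 1) = false := by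
        have := hξ (k - 1) (by simp)
        rw [this]; simp
      change gm ξ k = true
      have h4 : oddRun ξ k := by
        rw [oddRun_iff ξ k 1 (by simpa using hk1) (by
          intro j hj
          have : j = 0 := by omega
          subst this
          simpa using hk)]
        exact odd_one
      simp [gm, h4]
  have h5 := ENNReal.toReal_mono (measure_ne_top _ _) hle
  rwa [ENNReal.toReal_ofReal (by nlinarith)] at h5

theorem ae_no_two : ∀ᵐ ω ∂mu, ∀ i : ℤ, ¬ (ω i = true ∧ ω (i + 1) = true) := by
  rw [ae_all_iff]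
  intro i
  rw [ae_iff]
  have h1 := mu_markov i 0 (fun _ => true)
  have h2 : Pm true true = 0 := by simp [Pm]
  rw [h2] at h1
  simp only [ENNReal.ofReal_zero, mul_zero] at h1
  refine measure_mono_null ?_ h1
  intro ω hω
  simp only [not_not, Set.mem_ofPred_eq] at hω
  intro j hj
  rcases Nat.le_one_iff_eq_zero_or_eq_one.mp hj with rfl | rfl
  · simpa using hω.1
  · simpa using hω.2

theorem ico_cyl (a : ℤ) (n : ℕ) (x : ℤ → Bool) :
    {ω : ℤ → Bool | ∀ i ∈ Finset.Ico a (a + ((n + 1 : ℕ) : ℤ)), ω i = x i} =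
      cyl a n (fun i => x (a + i)) := by
  ext ω
  simp only [cyl, Set.mem_ofPred_eq, Finset.mem_Ico]
  constructor
  · intro h i hi
    exact h _ ⟨by omega, by push_cast; omega⟩
  · intro h i hi
    obtain ⟨j, hj⟩ := Int.eq_ofNat_of_zero_le (show 0 ≤ i - a by omega)
    have h2 := h j (by push_cast at hi; omega)
    have e : a + (j : ℤ) = i := by omega
    rwa [e] at h2

/-- The entropy of the golden mean chain. -/
noncomputable def hgold : ℝ := -Real.log rho

theorem exp_hgold (n : ℕ) : Real.exp (-(hgold * n)) = rho ^ n := by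
  unfold hgold
  rw [neg_mul, neg_neg, mul_comm, ← Real.log_pow, Real.exp_log (pow_pos rho_pos n)]

theorem upper (m : ℕ) (x : ℤ → Bool) :
    mu {ω | ∀ i ∈ Finset.Ico (0 : ℤ) m, ω i = x i} ≤
      ENNReal.ofReal ((rho⁻¹) ^ 2 * Real.exp (-(hgold * m))) := by
  have h0 := rho_pos
  have h1 := rho_lt_one
  rw [exp_hgold]
  rw [← ofReal_measureReal]
  apply ENNReal.ofReal_le_ofReal
  rcases m with _ | n
  · refine le_trans measureReal_le_one ?_
    rw [pow_zero, mul_one]
    have : 1 ≤ rho⁻¹ := (one_le_inv₀ h0).mpr h1.le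
    nlinarith
  · have h2 := ico_cyl 0 n x
    rw [zero_add] at h2
    rw [h2]
    refine le_trans (cyl_le' 0 n _) (le_of_eq ?_)
    field_simp
    ring

theorem lower (a : ℤ) (n : ℕ) : ∀ᵐ ω ∂mu, ((1 - rho) * rho ^ 2) * Real.exp (-(hgold * n)) ≤
    mu.real {ω' | ∀ i ∈ Finset.Ico a (a + n), ω' i = ω i} := by
  have h0 := rho_pos
  have h1 := rho_lt_one
  have h1' : 0 < 1 - rho := by linarith
  rw [exp_hgold]
  rcases n with _ | n
  · refine ae_of_all _ fun ω => ?_
    simp only [Nat.cast_zero, add_zero, Finset.Ico_self, Finset.notMem_empty, IsEmpty.forall_iff,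
      implies_true, Set.ofPred_true, probReal_univ, pow_zero, mul_one]
    have : rho ^ 2 ≤ 1 := by nlinarith
    nlinarith [sq_nonneg rho]
  · filter_upwards [ae_no_two] with ω hω
    rw [ico_cyl, cyl_ge a n _ (by
      intro i _
      have := hω (a + i)
      push_cast
      rwa [← add_assoc])]
    have h2 : mu.real (cyl a 0 fun i : ℕ => ω (a + i)) = mu.real {ω' | ω' a = ω a} := by
      congr 1
      ext ω'
      simp only [cyl, Set.mem_ofPred_eq]
      constructor
      · intro h
        simpa using h 0 le_rfl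
      · intro h i hi
        have : i = 0 := by omega
        subst this
        simpa using h
    rw [h2]
    have h3 := state_ge a (ω a)
    have h4 : rho ^ n * rho ≤ rho ^ n * vv (ω (a + n)) / vv (ω (a + (0 : ℕ))) := by
      rw [le_div_iff₀ (vv_pos _)]
      have h5 := vv_le (ω (a + (0 : ℕ)))
      have h6 := le_vv (ω (a + n))
      have h7 := vv_pos (ω (a + (0 : ℕ)))
      have h8 : rho * vv (ω (a + (0 : ℕ))) ≤ vv (ω (a + n)) := by nlinarith
      have h9 : 0 < rho ^ n := by positivity
      nlinarith
    calc (1 - rho) * rho ^ 2 * rho ^ (n + 1)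
        ≤ ((1 - rho) * rho) * (rho ^ n * rho) := by
          have : rho ^ (n + 1) * rho ≤ rho ^ (n + 1) * 1 := by gcongr
          have e1 : (1 - rho) * rho ^ 2 * rho ^ (n + 1) =
            ((1 - rho) * rho) * (rho ^ (n + 1) * rho) := by ring
          have e2 : ((1 - rho) * rho) * (rho ^ n * rho) =
            ((1 - rho) * rho) * (rho ^ (n + 1) * 1) := by ring
          rw [e1, e2]
          gcongr
      _ ≤ _ := mul_le_mul h3 h4 (by positivity) measureReal_nonneg

theorem exp_neg_hgold : Real.exp (-hgold) = rho := by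
  have := exp_hgold 1
  simpa using this

theorem hgold_nonneg : 0 ≤ hgold := by
  unfold hgold
  rw [Left.nonneg_neg_iff]
  exact Real.log_nonpos rho_pos.le rho_lt_one.le

end Pool.Agent.Y978.MG
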