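import Mathlib
import Pool.Agent.Y978.MG.Ent

set_option autoImplicit false

open MeasureTheory Filter
open scoped ENNReal Topology symmDiff

namespace Pool.Agent.Y978.MG

theorem cylinder_local {B : Set (ℤ → Bool)} (hB : B ∈ measurableCylinders (fun _ : ℤ => Bool)) :
    ∃ r : ℕ, ∀ ω ω' : ℤ → Bool, (∀ i : ℤ, |i| ≤ r → ω' i = ω i) → (ω' ∈ B ↔ ω ∈ B) := by
  rw [mem_measurableCylinders] at hB
  obtain ⟨s, S, _, rfl⟩ := hB
  refine ⟨s.sup Int.natAbs, fun ω ω' h => ?_⟩
  simp only [cylinder, Set.mem_preimage]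
  have : s.restrict ω' = s.restrict ω := by
    funext ⟨i, hi⟩
    refine h i ?_
    have h1 : i.natAbs ≤ s.sup Int.natAbs := Finset.le_sup (f := Int.natAbs) hi
    rw [Int.abs_eq_natAbs]
    exact_mod_cast h1
  rw [this]

theorem local_approx (μ : Measure (ℤ → Bool)) [IsProbabilityMeasure μ] {k : ℕ}
    (f : (ℤ → Bool) → Fin k) (hf : Measurable f) (δ : ℝ) (hδ : 0 < δ) :
    ∃ (g : (ℤ → Bool) → Fin k) (r : ℕ), Measurable g ∧
      (∀ ω ω' : ℤ → Bool, (∀ i : ℤ, |i| ≤ r → ω' i = ω i) → g ω' = g ω) ∧
      μ.real {ω | g ω ≠ f ω} ≤ δ := by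
  classical
  have hk : 0 < k := lt_of_le_of_lt (Nat.zero_le _) (f fun _ => false).isLt
  have hex : ∀ i : Fin k, ∃ B ∈ measurableCylinders (fun _ : ℤ => Bool),
      μ (B ∆ (f ⁻¹' {i})) < ENNReal.ofReal (δ / k) := by
    intro i
    refine exists_measure_symmDiff_lt_of_generateFrom_isSetRing
      isSetRing_measurableCylinders ⟨{Set.univ}, Set.countable_singleton _, ?_, ?_⟩
      (generateFrom_measurableCylinders (α := fun _ : ℤ => Bool)).symm
      (hf (measurableSet_singleton i)) ?_
    · rw [Set.singleton_subset_iff]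
      exact univ_mem_measurableCylinders _
    · simp
    · rw [ENNReal.ofReal_pos]
      positivity
  choose B hBc hBμ using hex
  have hBm : ∀ i, MeasurableSet (B i) := fun i =>
    MeasurableSet.of_mem_measurableCylinders (hBc i)
  choose ρ hρ using fun i => cylinder_local (hBc i)
  set γ : (Fin k → Bool) → Fin k := fun v => if hv : ∃ i, v i = true then hv.choose else ⟨0, hk⟩
    with hγ
  set V : (ℤ → Bool) → (Fin k → Bool) := fun ω i => decide (ω ∈ B i) with hV
  have hVm : Measurable V := by
    rw [measurable_pi_iff]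
    intro i
    refine measurable_to_bool ?_
    have : (fun ω => V ω i) ⁻¹' {true} = B i := by
      ext t; simp [hV]
    rw [this]
    exact hBm i
  refine ⟨γ ∘ V, Finset.univ.sup ρ, (measurable_of_countable γ).comp hVm, ?_, ?_⟩
  · intro ω ω' h
    simp only [Function.comp_apply]
    congr 1
    funext i
    simp only [hV]
    have h1 : ρ i ≤ Finset.univ.sup ρ := Finset.le_sup (Finset.mem_univ i)
    rw [decide_eq_decide]
    exact hρ i ω ω' fun j hj => h j (le_trans hj (by exact_mod_cast h1))
  · have hsub : {ω | (γ ∘ V) ω ≠ f ω} ⊆ ⋃ i : Fin k, B i ∆ (f ⁻¹' {i}) := by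
      intro ω hω
      by_contra hcon
      apply hω
      simp only [Set.mem_iUnion, not_exists] at hcon
      have h1 : ∀ i, ω ∈ B i ↔ f ω = i := by
        intro i
        have := hcon i
        rw [Set.mem_symmDiff] at this
        simp only [Set.mem_preimage, Set.mem_singleton_iff, not_or, not_and, not_not] at this
        exact ⟨this.1, fun h => this.2 h⟩
      have hv : ∃ i, V ω i = true := ⟨f ω, by simp [hV, (h1 (f ω)).2 rfl]⟩
      have h2 : γ (V ω) = hv.choose := by
        simp only [hγ]
        rw [dif_pos hv]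
      have h3 : ω ∈ B hv.choose := of_decide_eq_true hv.choose_spec
      rw [Function.comp_apply, h2]
      exact ((h1 _).1 h3).symm
    have h4 : μ {ω | (γ ∘ V) ω ≠ f ω} ≤ ENNReal.ofReal δ := by
      refine le_trans (measure_mono hsub) (le_trans (measure_iUnion_le _) ?_)
      rw [tsum_fintype]
      refine le_trans (Finset.sum_le_sum fun i _ => (hBμ i).le) ?_
      rw [Finset.sum_const, Finset.card_univ, Fintype.card_fin, nsmul_eq_mul,
        ← ENNReal.ofReal_natCast, ← ENNReal.ofReal_mul (by positivity)]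
      apply ENNReal.ofReal_le_ofReal
      have : (k : ℝ) ≠ 0 := by positivity
      rw [mul_div_cancel₀ _ this]
    rw [measureReal_def]
    have h5 := ENNReal.toReal_mono ENNReal.ofReal_ne_top h4
    rwa [ENNReal.toReal_ofReal hδ.le] at h5

end Pool.Agent.Y978.MG
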