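import Mathlib
import Pool.Agent.Y978.MG.Approx

set_option autoImplicit false

open MeasureTheory Filter
open scoped ENNReal Topology

namespace Pool.Agent.Y978.MG

/-- The noise kernel. -/
noncomputable def noise (k : ℕ) (ε : ℝ) (a b : Fin k) : ℝ := if a = b then 1 - ε else ε / k

theorem noise_pos {k : ℕ} {ε : ℝ} (h0 : 0 < ε) (h1 : ε < 1) (a b : Fin k) : 0 < noise k ε a b := by
  have hk : 0 < k := lt_of_le_of_lt (Nat.zero_le _) a.isLt
  have hk' : (0 : ℝ) < k := by exact_mod_cast hk
  unfold noise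
  split_ifs
  · linarith
  · positivity

theorem noise_sum {k : ℕ} {ε : ℝ} (h0 : 0 < ε) (a : Fin k) : ∑ b, noise k ε a b ≤ 1 := by
  have hk : 0 < k := lt_of_le_of_lt (Nat.zero_le _) a.isLt
  have hk' : (0 : ℝ) < k := by exact_mod_cast hk
  have h1 : ∀ b, noise k ε a b ≤ (if a = b then 1 - ε else 0) + ε / k := by
    intro b
    unfold noise
    have : 0 ≤ ε / k := by positivity
    split_ifs <;> linarith
  refine le_trans (Finset.sum_le_sum fun b _ => h1 b) ?_
  rw [Finset.sum_add_distrib, Finset.sum_ite_eq]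
  simp only [Finset.mem_univ, if_true, Finset.sum_const, Finset.card_univ, Fintype.card_fin,
    nsmul_eq_mul]
  rw [mul_div_cancel₀ _ hk'.ne']
  linarith

theorem block_bound (μ : Measure (ℤ → Bool)) [IsProbabilityMeasure μ]
    (hst : MeasurePreserving (shift : (ℤ → Bool) → (ℤ → Bool)) μ μ) (h c : ℝ) (hc : 0 < c)
    (hlow : ∀ (a : ℤ) (n : ℕ), ∀ᵐ ω ∂μ,
      c * Real.exp (-(h * n)) ≤ μ.real {ω' | ∀ i ∈ Finset.Ico a (a + n), ω' i = ω i})
    {k : ℕ} (f : (ℤ → Bool) → Fin k) (hf : Measurable f) (ε : ℝ) (h0 : 0 < ε) (h1 : ε < 1) :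
    ∃ r : ℕ, ∀ n : ℕ, entFin μ (fun ω => fun i : Fin n => f (shift^[i] ω)) ≤
      -Real.log c + h * (n + 2 * r) + n * (-Real.log (1 - ε) + ε) := by
  classical
  have hk : 0 < k := lt_of_le_of_lt (Nat.zero_le _) (f fun _ => false).isLt
  have hk' : (0 : ℝ) < k := by exact_mod_cast hk
  have hk1 : (1 : ℝ) ≤ k := by exact_mod_cast hk
  have hlogk : 0 ≤ -Real.log (ε / k) := by
    rw [Left.nonneg_neg_iff]
    apply Real.log_nonpos (by positivity)
    rw [div_le_one hk']
    linarith
  set δ : ℝ := ε / (1 + -Real.log (ε / k)) with hδ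
  have hδpos : 0 < δ := by positivity
  have hδl : δ * -Real.log (ε / k) ≤ ε := by
    rw [hδ, div_mul_eq_mul_div, div_le_iff₀ (by positivity)]
    have : 0 ≤ ε * 1 := by positivity
    nlinarith
  obtain ⟨g, r, hg, hloc, happ⟩ := local_approx μ f hf δ hδpos
  refine ⟨r, fun n => ?_⟩
  set F : (ℤ → Bool) → (Fin n → Fin k) := fun ω => fun i : Fin n => f (shift^[i] ω) with hF
  have hshm : ∀ i : ℕ, Measurable (shift^[i] : (ℤ → Bool) → (ℤ → Bool)) := fun i =>
    (hst.iterate i).measurable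
  have hFm : Measurable F := by
    rw [measurable_pi_iff]
    intro i
    exact hf.comp (hshm i)
  -- the noisy process
  set P : (Fin n → Fin k) → (ℤ → Bool) → ℝ := fun w ω =>
    ∏ i : Fin n, noise k ε (g (shift^[i] ω)) (w i) with hP
  have hPm : ∀ w, Measurable (P w) := by
    intro w
    refine Finset.measurable_prod _ fun i _ => ?_
    exact (measurable_of_countable (fun a => noise k ε a (w i))).comp (hg.comp (hshm i))
  have hnoise1 : ∀ a b : Fin k, noise k ε a b ≤ 1 := by
    intro a b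
    refine le_trans ?_ (noise_sum h0 a)
    exact Finset.single_le_sum (fun b _ => (noise_pos h0 h1 a b).le) (Finset.mem_univ b)
  have hP0 : ∀ w ω, 0 < P w ω := fun w ω => Finset.prod_pos fun i _ => noise_pos h0 h1 _ _
  have hP1 : ∀ w ω, P w ω ≤ 1 := fun w ω =>
    Finset.prod_le_one (fun i _ => (noise_pos h0 h1 _ _).le) fun i _ => hnoise1 _ _
  have hPi : ∀ w, Integrable (P w) μ := fun w =>
    Integrable.of_bound (hPm w).aestronglyMeasurable 1 (ae_of_all _ fun ω => by
      rw [Real.norm_eq_abs, abs_of_pos (hP0 w ω)]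
      exact hP1 w ω)
  set q : (Fin n → Fin k) → ℝ := fun w => ∫ ω, P w ω ∂μ with hq
  have hq0 : ∀ w, 0 ≤ q w := fun w => integral_nonneg fun ω => (hP0 w ω).le
  have hq1 : ∑ w, q w ≤ 1 := by
    rw [hq]
    simp only
    rw [← integral_finsetSum _ fun w _ => hPi w]
    have : ∀ ω, ∑ w, P w ω ≤ 1 := by
      intro ω
      have e1 : ∑ w : Fin n → Fin k, P w ω =
          ∏ i : Fin n, ∑ b, noise k ε (g (shift^[i] ω)) b := by
        rw [Finset.prod_univ_sum, Fintype.piFinset_univ]
      rw [e1]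
      exact Finset.prod_le_one (fun i _ => Finset.sum_nonneg fun b _ => (noise_pos h0 h1 _ _).le)
        fun i _ => noise_sum h0 _
    calc ∫ ω, ∑ w, P w ω ∂μ ≤ ∫ _, (1 : ℝ) ∂μ :=
          integral_mono (integrable_finsetSum _ fun w _ => hPi w) (integrable_const _) this
      _ = 1 := by simp
  -- the lower bound
  have hlb : ∀ᵐ ω ∂μ, c * Real.exp (-(h * (n + 2 * r))) *
      ∏ i : Fin n, noise k ε (g (shift^[i] ω)) (f (shift^[i] ω)) ≤ q (F ω) := by
    filter_upwards [hlow (-(r : ℤ)) (n + 2 * r)] with ω hω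
    have hcast : (-(h * ((n + 2 * r : ℕ) : ℝ))) = -(h * (n + 2 * r)) := by push_cast; ring
    rw [hcast] at hω
    set Cy : Set (ℤ → Bool) :=
      {ω' | ∀ i ∈ Finset.Ico (-(r : ℤ)) (-(r : ℤ) + ((n + 2 * r : ℕ) : ℤ)), ω' i = ω i} with hCy
    have hCm : MeasurableSet Cy := by
      have : Cy = ⋂ i ∈ Finset.Ico (-(r : ℤ)) (-(r : ℤ) + ((n + 2 * r : ℕ) : ℤ)),
          (fun ω' : ℤ → Bool => ω' i) ⁻¹' {ω i} := by
        ext ω'; simp [hCy]
      rw [this]
      exact Finset.measurableSet_biInter _ fun i _ =>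
        (measurable_pi_apply i) (measurableSet_singleton _)
    have hconst : ∀ ω' ∈ Cy, P (F ω) ω' = P (F ω) ω := by
      intro ω' hω'
      refine Finset.prod_congr rfl fun i _ => ?_
      congr 1
      apply hloc
      intro j hj
      rw [shift_iterate, shift_iterate]
      apply hω'
      rw [Finset.mem_Ico]
      rw [abs_le] at hj
      have := i.isLt
      constructor
      · omega
      · push_cast; omega
    have hPF : P (F ω) ω = ∏ i : Fin n, noise k ε (g (shift^[i] ω)) (f (shift^[i] ω)) := rfl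
    rw [← hPF]
    calc c * Real.exp (-(h * (n + 2 * r))) * P (F ω) ω ≤ μ.real Cy * P (F ω) ω :=
          mul_le_mul_of_nonneg_right hω (hP0 _ _).le
      _ = ∫ ω' in Cy, P (F ω) ω' ∂μ := by
          rw [setIntegral_congr_fun hCm hconst]
          simp
      _ ≤ q (F ω) := setIntegral_le_integral (hPi _) (ae_of_all _ fun ω' => (hP0 _ _).le)
  have hqpos : ∀ᵐ ω ∂μ, 0 < q (F ω) := by
    filter_upwards [hlb] with ω hω
    refine lt_of_lt_of_le ?_ hω
    have := hP0 (F ω) ω
    have h2 : 0 < ∏ i : Fin n, noise k ε (g (shift^[i] ω)) (f (shift^[i] ω)) := this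
    positivity
  refine le_trans (entFin_le μ F hFm q hq0 hq1 hqpos) ?_
  -- integrate the logarithm
  set J : (ℤ → Bool) → ℝ := fun ω => -Real.log (noise k ε (g ω) (f ω)) with hJ
  have hJfm : Measurable fun ω => (g ω, f ω) := hg.prodMk hf
  have hJi : Integrable J μ := (integral_comp_fin μ (fun ω => (g ω, f ω)) hJfm
    (fun p => -Real.log (noise k ε p.1 p.2))).1
  have hJint : ∫ ω, J ω ∂μ ≤ -Real.log (1 - ε) + ε := by
    have hms : MeasurableSet {ω | g ω ≠ f ω} := (measurableSet_eq_fun hg hf).compl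
    have hJle : ∀ ω, J ω ≤ -Real.log (1 - ε) +
        ({ω | g ω ≠ f ω} : Set (ℤ → Bool)).indicator (fun _ => -Real.log (ε / k)) ω := by
      intro ω
      have hneg : 0 ≤ -Real.log (1 - ε) := by
        rw [Left.nonneg_neg_iff]
        exact Real.log_nonpos (by linarith) (by linarith)
      by_cases hgf : g ω = f ω
      · rw [Set.indicator_of_notMem (by simpa using hgf)]
        simp [hJ, noise, hgf]
      · rw [Set.indicator_of_mem (by simpa using hgf)]
        simp only [hJ, noise, hgf, if_false]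
        linarith
    calc ∫ ω, J ω ∂μ ≤ ∫ ω, (-Real.log (1 - ε) +
          ({ω | g ω ≠ f ω} : Set (ℤ → Bool)).indicator (fun _ => -Real.log (ε / k)) ω) ∂μ :=
          integral_mono hJi ((integrable_const _).add ((integrable_const _).indicator hms)) hJle
      _ = -Real.log (1 - ε) + μ.real {ω | g ω ≠ f ω} * -Real.log (ε / k) := by
          rw [integral_add (integrable_const _) ((integrable_const _).indicator hms),
            integral_indicator hms]
          simp
      _ ≤ -Real.log (1 - ε) + δ * -Real.log (ε / k) := by gcongr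
      _ ≤ _ := by linarith
  have hJs : ∀ i : ℕ, Integrable (fun ω => J (shift^[i] ω)) μ := fun i =>
    (hst.iterate i).integrable_comp_of_integrable hJi
  have hJv : ∀ i : ℕ, ∫ ω, J (shift^[i] ω) ∂μ = ∫ ω, J ω ∂μ := by
    intro i
    have hmp := hst.iterate i
    have h2 : ∫ b, J b ∂(μ.map shift^[i]) = ∫ a, J (shift^[i] a) ∂μ :=
      integral_map hmp.measurable.aemeasurable (by rw [hmp.map_eq]; exact hJi.aestronglyMeasurable)
    rw [hmp.map_eq] at h2
    exact h2.symm
  have hae : ∀ᵐ ω ∂μ, -Real.log (q (F ω)) ≤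
      (-Real.log c + h * (n + 2 * r)) + ∑ i : Fin n, J (shift^[i] ω) := by
    filter_upwards [hlb] with ω hω
    have hpr : 0 < ∏ i : Fin n, noise k ε (g (shift^[i] ω)) (f (shift^[i] ω)) := hP0 (F ω) ω
    have h2 := Real.log_le_log (by positivity) hω
    rw [Real.log_mul (by positivity) hpr.ne', Real.log_mul hc.ne' (Real.exp_pos _).ne',
      Real.log_exp, Real.log_prod (fun i _ => (noise_pos h0 h1 _ _).ne')] at h2
    simp only [hJ, Finset.sum_neg_distrib]
    linarith
  have hqi : Integrable (fun ω => -Real.log (q (F ω))) μ :=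
    (integral_comp_fin μ F hFm (fun w => -Real.log (q w))).1
  have hsi : Integrable (fun ω => ∑ i : Fin n, J (shift^[i] ω)) μ :=
    integrable_finsetSum _ fun i _ => hJs i
  calc ∫ ω, -Real.log (q (F ω)) ∂μ
      ≤ ∫ ω, ((-Real.log c + h * (n + 2 * r)) + ∑ i : Fin n, J (shift^[i] ω)) ∂μ :=
        integral_mono_ae hqi ((integrable_const _).add hsi) hae
    _ = (-Real.log c + h * (n + 2 * r)) + n * ∫ ω, J ω ∂μ := by
        have e2 : ∫ ω, ∑ i : Fin n, J (shift^[i] ω) ∂μ = n * ∫ ω, J ω ∂μ := by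
          rw [integral_finsetSum Finset.univ (fun (i : Fin n) _ => hJs (i : ℕ)),
            Finset.sum_congr rfl fun (i : Fin n) _ => hJv (i : ℕ)]
          simp
        rw [integral_add (integrable_const _) hsi, e2]
        simp
    _ ≤ _ := by
        have : (n : ℝ) * ∫ ω, J ω ∂μ ≤ n * (-Real.log (1 - ε) + ε) := by gcongr
        linarith

theorem ks_upper (μ : Measure (ℤ → Bool)) [IsProbabilityMeasure μ]
    (hst : MeasurePreserving (shift : (ℤ → Bool) → (ℤ → Bool)) μ μ) (h c : ℝ) (hc : 0 < c)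
    (hlow : ∀ (a : ℤ) (n : ℕ), ∀ᵐ ω ∂μ,
      c * Real.exp (-(h * n)) ≤ μ.real {ω' | ∀ i ∈ Finset.Ico a (a + n), ω' i = ω i}) :
    ksEntropy μ shift ≤ ENNReal.ofReal h := by
  unfold ksEntropy
  refine iSup_le fun k => iSup_le fun f => iSup_le fun hf => ?_
  have key : ∀ ε : ℝ, 0 < ε → ε < 1 → limsup (fun n : ℕ =>
      ENNReal.ofReal (entFin μ (fun ω => fun i : Fin n => f (shift^[i] ω)) / n)) atTop ≤
      ENNReal.ofReal (h + (-Real.log (1 - ε) + ε)) := by
    intro ε h0 h1
    obtain ⟨r, hr⟩ := block_bound μ hst h c hc hlow f hf ε h0 h1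
    have hlim : Tendsto (fun n : ℕ => ENNReal.ofReal
        ((-Real.log c + h * (2 * r)) / n + (h + (-Real.log (1 - ε) + ε)))) atTop
        (𝓝 (ENNReal.ofReal (0 + (h + (-Real.log (1 - ε) + ε))))) :=
      ENNReal.tendsto_ofReal ((tendsto_const_div_atTop_nhds_zero_nat _).add_const _)
    rw [zero_add] at hlim
    rw [← hlim.limsup_eq]
    refine limsup_le_limsup ?_
    filter_upwards [eventually_gt_atTop 0] with n hn
    have hn' : (0 : ℝ) < n := by exact_mod_cast hn
    apply ENNReal.ofReal_le_ofReal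
    rw [div_le_iff₀ hn']
    have := hr n
    have e1 : ((-Real.log c + h * (2 * r)) / n + (h + (-Real.log (1 - ε) + ε))) * n =
        -Real.log c + h * (n + 2 * r) + n * (-Real.log (1 - ε) + ε) := by
      field_simp
      ring
    rw [e1]
    exact this
  have hlim2 : Tendsto (fun ε : ℝ => ENNReal.ofReal (h + (-Real.log (1 - ε) + ε))) (𝓝[>] 0)
      (𝓝 (ENNReal.ofReal h)) := by
    have hcont : ContinuousAt (fun ε : ℝ => h + (-Real.log (1 - ε) + ε)) 0 := by
      have : ContinuousAt (fun ε : ℝ => Real.log (1 - ε)) 0 := by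
        apply ContinuousAt.log
        · fun_prop
        · norm_num
      fun_prop
    have h2 : Tendsto (fun ε : ℝ => h + (-Real.log (1 - ε) + ε)) (𝓝[>] 0) (𝓝 h) := by
      have h3 := hcont.tendsto
      simp only [sub_zero, Real.log_one, neg_zero, add_zero] at h3
      exact h3.mono_left nhdsWithin_le_nhds
    exact ENNReal.tendsto_ofReal h2
  refine ge_of_tendsto hlim2 ?_
  filter_upwards [Ioo_mem_nhdsGT (show (0 : ℝ) < 1 by norm_num)] with ε hε
  exact key ε hε.1 hε.2

end Pool.Agent.Y978.MG
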