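import Mathlib
import Pool.Agent.Y978.MG.Shift

set_option autoImplicit false

open MeasureTheory Filter
open scoped ENNReal Topology

namespace Pool.Agent.Y978.MG

theorem fiber_bound (μ : Measure (ℤ → Bool)) (B : ℝ≥0∞) (s : Finset ℤ)
    (hB : ∀ x : ℤ → Bool, μ {ω | ∀ i ∈ s, ω i = x i} ≤ B) (I U : Finset ℤ)
    (hI : ∀ i ∈ s, i ∈ I ∨ i ∈ U) (x : ℤ → Bool) :
    μ {ω | ∀ i ∈ I, ω i = x i} ≤ 2 ^ U.card * B := by
  classical
  have hsub : {ω : ℤ → Bool | ∀ i ∈ I, ω i = x i} ⊆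
      ⋃ A ∈ U.powerset, {ω | ∀ i ∈ s, ω i = (if i ∈ I then x i else decide (i ∈ A))} := by
    intro ω hω
    simp only [Set.mem_iUnion, Set.mem_ofPred_eq, Finset.mem_powerset]
    refine ⟨U.filter (fun i => ω i = true), Finset.filter_subset _ _, ?_⟩
    intro i hi
    by_cases h : i ∈ I
    · simp [h, hω i h]
    · have hU : i ∈ U := (hI i hi).resolve_left h
      simp [h, hU]
  refine le_trans (measure_mono hsub) (le_trans (measure_biUnion_finset_le _ _) ?_)
  refine le_trans (Finset.sum_le_card_nsmul _ _ B (fun A _ => hB _)) ?_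
  rw [Finset.card_powerset, nsmul_eq_mul]
  push_cast
  exact le_rfl

section Code

variable {T : Type*} [MeasurableSpace T]

/-- The set where the coding window is larger than `r`. -/
def badSet {S : Type*} (φ : (ℤ → T) → (ℤ → S)) (G : Set (ℤ → T)) (r : ℕ) : Set (ℤ → T) :=
  {y | y ∈ G ∧ ∃ y' ∈ G, (∀ i : ℤ, |i| ≤ r → y' i = y i) ∧ φ y' 0 ≠ φ y 0}

theorem ae_good {S : Type*} (τ : Measure T) [IsProbabilityMeasure τ]
    (φ : (ℤ → T) → (ℤ → S)) (G : Set (ℤ → T))
    (hG : ∀ᵐ y ∂(Measure.infinitePi fun _ : ℤ => τ), y ∈ G)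
    (heq : ∀ᵐ y ∂(Measure.infinitePi fun _ : ℤ => τ), φ (shift y) = shift (φ y)) :
    ∀ᵐ y ∂(Measure.infinitePi fun _ : ℤ => τ),
      ∀ n : ℕ, shift^[n] y ∈ G ∧ φ (shift^[n] y) 0 = φ y n := by
  have h1 : ∀ᵐ y ∂(Measure.infinitePi fun _ : ℤ => τ), ∀ n : ℕ, shift^[n] y ∈ G := by
    rw [ae_all_iff]
    intro n
    exact ((shift_mp τ).iterate n).quasiMeasurePreserving.ae hG
  have h2 : ∀ᵐ y ∂(Measure.infinitePi fun _ : ℤ => τ), ∀ n : ℕ,
      φ (shift (shift^[n] y)) = shift (φ (shift^[n] y)) := by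
    rw [ae_all_iff]
    intro n
    exact ((shift_mp τ).iterate n).quasiMeasurePreserving.ae heq
  filter_upwards [h1, h2] with y hy1 hy2 n
  refine ⟨hy1 n, ?_⟩
  have h3 : φ (shift^[n] y) = shift^[n] (φ y) := by
    induction n with
    | zero => rfl
    | succ n ih =>
      rw [Function.iterate_succ_apply', hy2 n, ih, Function.iterate_succ_apply']
  rw [h3, shift_iterate]
  simp

theorem code_pointwise [MeasurableSingletonClass T] (τ : Measure T) [IsProbabilityMeasure τ]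
    (μ : Measure (ℤ → Bool)) (φ : (ℤ → T) → (ℤ → Bool)) (hφ : Measurable φ)
    (hlaw : (Measure.infinitePi fun _ : ℤ => τ).map φ = μ)
    (G : Set (ℤ → T)) (hG : ∀ᵐ y ∂(Measure.infinitePi fun _ : ℤ => τ), y ∈ G)
    (heq : ∀ᵐ y ∂(Measure.infinitePi fun _ : ℤ => τ), φ (shift y) = shift (φ y))
    (m : ℕ) (B : ℝ≥0∞)
    (hB : ∀ x : ℤ → Bool, μ {ω | ∀ i ∈ Finset.Ico (0 : ℤ) m, ω i = x i} ≤ B) :
    ∀ᵐ y ∂(Measure.infinitePi fun _ : ℤ => τ), ∃ V : Finset ℕ,
      V ⊆ Finset.range m ∧ (∀ i ∈ V, shift^[i] y ∈ badSet φ G (min i (m - 1 - i))) ∧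
      ∏ i ∈ Finset.Ico (0 : ℤ) m, τ {y i} ≤ 2 ^ V.card * B := by
  classical
  have hgood := ae_good τ φ G hG heq
  set GG : Set (ℤ → T) := {y | ∀ n : ℕ, shift^[n] y ∈ G ∧ φ (shift^[n] y) 0 = φ y n} with hGG
  filter_upwards [hgood] with y hy
  set V : Finset ℕ := (Finset.range m).filter
    (fun i => ∃ y' ∈ GG, (∀ j ∈ Finset.Ico (0 : ℤ) m, y' j = y j) ∧ φ y' i ≠ φ y i) with hV
  refine ⟨V, Finset.filter_subset _ _, ?_, ?_⟩
  · intro i hi
    rw [hV, Finset.mem_filter, Finset.mem_range] at hi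
    obtain ⟨him, y', hy', hag, hne⟩ := hi
    refine ⟨(hy i).1, shift^[i] y', (hy' i).1, ?_, ?_⟩
    · intro j hj
      rw [shift_iterate, shift_iterate]
      apply hag
      rw [Finset.mem_Ico]
      rw [abs_le] at hj
      have h1 : ((min i (m - 1 - i) : ℕ) : ℤ) ≤ i := by exact_mod_cast min_le_left _ _
      have h2 : ((min i (m - 1 - i) : ℕ) : ℤ) ≤ ((m - 1 - i : ℕ) : ℤ) := by
        exact_mod_cast min_le_right _ _
      have h3 : ((m - 1 - i : ℕ) : ℤ) = m - 1 - i := by omega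
      constructor <;> omega
    · rw [(hy' i).2, (hy i).2]
      exact hne
  · have hcyl : (Measure.infinitePi fun _ : ℤ => τ)
        ((Finset.Ico (0 : ℤ) m : Set ℤ).pi fun i => {y i}) =
        ∏ i ∈ Finset.Ico (0 : ℤ) m, τ {y i} :=
      Measure.infinitePi_pi _ (fun i _ => measurableSet_singleton _)
    rw [← hcyl]
    set I : Finset ℤ := (Finset.Ico (0 : ℤ) m).filter (fun i => ∀ y' ∈ GG,
      (∀ j ∈ Finset.Ico (0 : ℤ) m, y' j = y j) → φ y' i = φ y i) with hI
    have hms : MeasurableSet {ω : ℤ → Bool | ∀ i ∈ I, ω i = φ y i} := by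
      have : {ω : ℤ → Bool | ∀ i ∈ I, ω i = φ y i} = ⋂ i ∈ I, (fun ω => ω i) ⁻¹' {φ y i} := by
        ext ω; simp
      rw [this]
      exact Finset.measurableSet_biInter _ fun i _ =>
        (measurable_pi_apply i) (measurableSet_singleton _)
    have hfb := fiber_bound μ B (Finset.Ico (0 : ℤ) m) hB I (V.map Nat.castEmbedding) (by
      intro i hi
      by_cases h : i ∈ I
      · exact Or.inl h
      · right
        rw [hI, Finset.mem_filter, not_and] at h
        have h' := h hi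
        push Not at h'
        obtain ⟨y', hy', hag, hne⟩ := h'
        rw [Finset.mem_Ico] at hi
        obtain ⟨k, rfl⟩ := Int.eq_ofNat_of_zero_le hi.1
        rw [Finset.mem_map]
        refine ⟨k, ?_, rfl⟩
        rw [hV, Finset.mem_filter, Finset.mem_range]
        exact ⟨by omega, y', hy', hag, hne⟩) (φ y)
    rw [Finset.card_map] at hfb
    refine le_trans ?_ hfb
    rw [← hlaw, Measure.map_apply hφ hms]
    refine measure_mono_ae ?_
    filter_upwards [hgood] with y' hy'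
    intro (hmem : ∀ i ∈ (Finset.Ico (0 : ℤ) m : Set ℤ), y' i ∈ ({y i} : Set T))
    change ∀ i ∈ I, φ y' i = φ y i
    intro i hi
    rw [hI, Finset.mem_filter] at hi
    exact hi.2 y' hy' (fun j hj => by simpa using hmem j hj)

end Code

end Pool.Agent.Y978.MG
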