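import Mathlib
import Pool.Agent.W850.HT.Block

set_option autoImplicit false

open MeasureTheory Filter
open scoped ENNReal Topology

namespace Pool.Agent.Y978.MG

theorem charfun_pow {T : Type*} [MeasurableSpace T] (τ : Measure T) [IsProbabilityMeasure τ]
    (f : T → ℝ) (hf : Measurable f) (θ : ℝ) (m : ℕ) :
    ∫ y, Complex.exp (Complex.I * ((θ * ∑ i ∈ Finset.Ico (0 : ℤ) m, f (y i) : ℝ) : ℂ))
      ∂(Measure.infinitePi fun _ : ℤ => τ) =
      (∫ t, Complex.exp (Complex.I * ((θ * f t : ℝ) : ℂ)) ∂τ) ^ m := by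
  have h := Pool.Agent.W850.HT.integral_prod_infinitePi (fun _ : ℤ => τ) (Finset.Ico (0 : ℤ) m)
    (fun _ t => Complex.exp (Complex.I * ((θ * f t : ℝ) : ℂ))) (fun _ => by fun_prop)
  rw [Finset.prod_const] at h
  have hc : (Finset.Ico (0 : ℤ) m).card = m := by simp
  rw [hc] at h
  rw [← h]
  congr 1
  ext y
  rw [← Complex.exp_sum]
  congr 1
  push_cast
  rw [Finset.mul_sum, Finset.mul_sum]

theorem charfun_close {T : Type*} [MeasurableSpace T]
    (τ : Measure T) [IsProbabilityMeasure τ]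
    (f : T → ℝ) (hf : Measurable f) (K : ℝ) (m : ℕ)
    (hint : Integrable (fun y : ℤ → T => ∑ i ∈ Finset.Ico (0 : ℤ) m, f (y i))
      (Measure.infinitePi fun _ : ℤ => τ))
    (hK : ∫ y, |∑ i ∈ Finset.Ico (0 : ℤ) m, f (y i)|
      ∂(Measure.infinitePi fun _ : ℤ => τ) ≤ K) (θ : ℝ) (hθpos : 0 < θ) :
    1 - θ * K ≤ ‖∫ t, Complex.exp (Complex.I * ((θ * f t : ℝ) : ℂ)) ∂τ‖ ^ m := by
  set ψ : ℂ := ∫ t, Complex.exp (Complex.I * ((θ * f t : ℝ) : ℂ)) ∂τ with hψ
  have hle : ‖1 - ψ ^ m‖ ≤ θ * K := by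
    rw [hψ, ← charfun_pow τ f hf θ m]
    have e1 : (1 : ℂ) = ∫ y : ℤ → T, (1 : ℂ) ∂(Measure.infinitePi fun _ : ℤ => τ) := by simp
    conv_lhs => rw [e1]
    have hmeas : Measurable fun y : ℤ → T =>
        Complex.exp (Complex.I * ((θ * ∑ i ∈ Finset.Ico (0 : ℤ) m, f (y i) : ℝ) : ℂ)) := by
      fun_prop
    have hnorm : ∀ y : ℤ → T,
        ‖Complex.exp (Complex.I * ((θ * ∑ i ∈ Finset.Ico (0 : ℤ) m, f (y i) : ℝ) : ℂ))‖ ≤ 1 := by
      intro y
      rw [mul_comm, Complex.norm_exp_ofReal_mul_I]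
    rw [← integral_sub (integrable_const _)
      (Integrable.of_bound hmeas.aestronglyMeasurable 1 (ae_of_all _ hnorm))]
    refine le_trans (norm_integral_le_integral_norm _) ?_
    calc ∫ y : ℤ → T, ‖(1 : ℂ) - Complex.exp
          (Complex.I * ((θ * ∑ i ∈ Finset.Ico (0 : ℤ) m, f (y i) : ℝ) : ℂ))‖
          ∂(Measure.infinitePi fun _ : ℤ => τ)
        ≤ ∫ y : ℤ → T, θ * |∑ i ∈ Finset.Ico (0 : ℤ) m, f (y i)|
          ∂(Measure.infinitePi fun _ : ℤ => τ) := by
          refine integral_mono_of_nonneg (ae_of_all _ fun _ => norm_nonneg _)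
            (hint.abs.const_mul θ) (ae_of_all _ fun y => ?_)
          simp only
          rw [norm_sub_rev]
          refine le_trans (Real.norm_exp_I_mul_ofReal_sub_one_le) ?_
          rw [Real.norm_eq_abs, abs_mul, abs_of_pos hθpos]
      _ = θ * ∫ y : ℤ → T, |∑ i ∈ Finset.Ico (0 : ℤ) m, f (y i)|
          ∂(Measure.infinitePi fun _ : ℤ => τ) := integral_const_mul _ _
      _ ≤ θ * K := by gcongr
  have h2 : ‖(1 : ℂ)‖ - ‖ψ ^ m‖ ≤ ‖1 - ψ ^ m‖ := norm_sub_norm_le _ _
  rw [norm_one, norm_pow] at h2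
  linarith

theorem norm_exp_add (a b : ℝ) :
    ‖Complex.exp (Complex.I * (a : ℂ)) + Complex.exp (Complex.I * (b : ℂ))‖ ≤
      2 * |Real.cos ((a - b) / 2)| := by
  have h1 : Complex.exp (Complex.I * (a : ℂ)) + Complex.exp (Complex.I * (b : ℂ)) =
      Complex.exp ((((a + b) / 2 : ℝ) : ℂ) * Complex.I) *
        (2 * ((Real.cos ((a - b) / 2) : ℝ) : ℂ)) := by
    rw [Complex.ofReal_cos, Complex.cos]
    rw [mul_div_cancel₀ _ (two_ne_zero), mul_add, ← Complex.exp_add, ← Complex.exp_add]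
    congr 1 <;> congr 1 <;> push_cast <;> ring
  rw [h1, norm_mul, Complex.norm_exp_ofReal_mul_I, one_mul, norm_mul, Complex.norm_real,
    Real.norm_eq_abs]
  simp

theorem charfun_le {T : Type*} [MeasurableSpace T] [MeasurableSingletonClass T]
    (τ : Measure T) [IsProbabilityMeasure τ]
    (f : T → ℝ) (hf : Measurable f) (θ : ℝ) (s t : T) (hst : s ≠ t) (r : ℝ) (hr : 0 ≤ r)
    (hs : r ≤ τ.real {s}) (ht : r ≤ τ.real {t}) :
    ‖∫ t, Complex.exp (Complex.I * ((θ * f t : ℝ) : ℂ)) ∂τ‖ ≤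
      1 - 2 * r * (1 - |Real.cos ((θ * f s - θ * f t) / 2)|) := by
  classical
  set e : T → ℂ := fun t => Complex.exp (Complex.I * ((θ * f t : ℝ) : ℂ)) with he
  have hem : Measurable e := by fun_prop
  have hnorm : ∀ y, ‖e y‖ ≤ 1 := by
    intro y
    rw [he]
    simp only
    rw [mul_comm, Complex.norm_exp_ofReal_mul_I]
  have hei : Integrable e τ := Integrable.of_bound hem.aestronglyMeasurable 1 (ae_of_all _ hnorm)
  have hms : MeasurableSet ((({s, t} : Finset T) : Set T)) := Finset.measurableSet _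
  rw [← integral_add_compl hms hei]
  refine le_trans (norm_add_le _ _) ?_
  have h1 : ∫ x in (({s, t} : Finset T) : Set T), e x ∂τ = τ.real {s} • e s + τ.real {t} • e t := by
    rw [setIntegral_finset _ hei.integrableOn, Finset.sum_pair hst]
  have h2 : ‖∫ x in (({s, t} : Finset T) : Set T)ᶜ, e x ∂τ‖ ≤ 1 - (τ.real {s} + τ.real {t}) := by
    have h3 : ‖∫ x in (({s, t} : Finset T) : Set T)ᶜ, e x ∂τ‖ ≤
        1 * τ.real (({s, t} : Finset T) : Set T)ᶜ := by
      refine norm_setIntegral_le_of_norm_le_const (measure_lt_top _ _) fun x _ => hnorm x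
    have h4 : τ.real (({s, t} : Finset T) : Set T) = τ.real {s} + τ.real {t} := by
      have h5 : (({s, t} : Finset T) : Set T) = {s} ∪ {t} := by
        ext x; simp [or_comm]
      rw [h5]
      exact measureReal_union (by simpa using hst) (measurableSet_singleton _)
    rw [probReal_compl_eq_one_sub hms, h4, one_mul] at h3
    exact h3
  rw [h1]
  have h6 : τ.real {s} • e s + τ.real {t} • e t = (τ.real {s} - r) • e s +
      ((τ.real {t} - r) • e t + r • (e s + e t)) := by
    simp only [sub_smul, smul_add]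
    ring
  have h7 : ‖τ.real {s} • e s + τ.real {t} • e t‖ ≤ (τ.real {s} - r) + ((τ.real {t} - r) +
      r * (2 * |Real.cos ((θ * f s - θ * f t) / 2)|)) := by
    rw [h6]
    refine le_trans (norm_add_le _ _) (add_le_add ?_ (le_trans (norm_add_le _ _)
      (add_le_add ?_ ?_)))
    · rw [norm_smul, Real.norm_of_nonneg (by linarith)]
      exact mul_le_of_le_one_right (by linarith) (hnorm s)
    · rw [norm_smul, Real.norm_of_nonneg (by linarith)]
      exact mul_le_of_le_one_right (by linarith) (hnorm t)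
    · rw [norm_smul, Real.norm_of_nonneg hr]
      exact mul_le_mul_of_nonneg_left (norm_exp_add _ _) hr
  linarith

theorem walk_const {T : Type*} [MeasurableSpace T] [MeasurableSingletonClass T]
    (τ : Measure T) [IsProbabilityMeasure τ]
    (f : T → ℝ) (hf : Measurable f) (K : ℕ → ℝ)
    (hint : ∀ m : ℕ, Integrable (fun y : ℤ → T => ∑ i ∈ Finset.Ico (0 : ℤ) m, f (y i))
      (Measure.infinitePi fun _ : ℤ => τ))
    (hK : ∀ m : ℕ, ∫ y, |∑ i ∈ Finset.Ico (0 : ℤ) m, f (y i)|
      ∂(Measure.infinitePi fun _ : ℤ => τ) ≤ K m)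
    (hlim : Tendsto (fun m : ℕ => K m / √m) atTop (𝓝 0))
    (s t : T) (hs : 0 < τ.real {s}) (ht : 0 < τ.real {t}) : f s = f t := by
  by_contra hne
  have hst : s ≠ t := fun h => hne (by rw [h])
  set D : ℝ := f s - f t with hD
  have hD0 : D ≠ 0 := sub_ne_zero.mpr hne
  set r : ℝ := min (τ.real {s}) (τ.real {t}) with hr
  have hrpos : 0 < r := lt_min hs ht
  have hrs : r ≤ τ.real {s} := min_le_left _ _
  have hrt : r ≤ τ.real {t} := min_le_right _ _
  set c : ℝ := r * D ^ 2 / 8 with hc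
  have hcpos : 0 < c := by positivity
  -- for large m
  have hev : ∀ᶠ m : ℕ in atTop, 1 - K m / √m ≤ Real.exp (-c) := by
    filter_upwards [eventually_ge_atTop (max 1 ⌈D ^ 2⌉₊)] with m hm
    have hm1 : 1 ≤ m := le_trans (le_max_left _ _) hm
    have hmD : D ^ 2 ≤ m := le_trans (Nat.le_ceil _) (by exact_mod_cast le_trans (le_max_right _ _) hm)
    have hmpos : (0 : ℝ) < m := by exact_mod_cast hm1
    have hsq : 0 < √(m : ℝ) := Real.sqrt_pos.mpr hmpos
    set θ : ℝ := 1 / √(m : ℝ) with hθ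
    have hθpos : 0 < θ := by positivity
    have hθ2 : θ ^ 2 = 1 / m := by
      rw [hθ, div_pow, one_pow, Real.sq_sqrt hmpos.le]
    have h1 := charfun_close τ f hf (K m) m (hint m) (hK m) θ hθpos
    have h2 := charfun_le τ f hf θ s t hst r hrpos.le hrs hrt
    set x : ℝ := (θ * f s - θ * f t) / 2 with hx
    have hx2 : x ^ 2 = D ^ 2 / (4 * m) := by
      have : x = θ * D / 2 := by rw [hx, hD]; ring
      rw [this, div_pow, mul_pow, hθ2]
      field_simp
      norm_num
    have hx1 : x ^ 2 ≤ 1 / 4 := by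
      rw [hx2, div_le_div_iff₀ (by positivity) (by norm_num)]
      linarith
    have hxabs : |x| ≤ 1 := by
      rw [← sq_le_one_iff_abs_le_one]
      linarith
    have hcos : |Real.cos x| ≤ 1 - x ^ 2 / 4 := by
      have hb := Real.cos_bound hxabs
      rw [abs_le] at hb
      have hx4 : |x| ^ 4 ≤ x ^ 2 := by
        have e1 : |x| ^ 4 = x ^ 2 * x ^ 2 := by
          rw [show |x| ^ 4 = (|x| ^ 2) ^ 2 by ring, sq_abs]; ring
        rw [e1]
        have := sq_nonneg x
        nlinarith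
      have := sq_nonneg x
      rw [abs_le]
      constructor
      · nlinarith [hb.1]
      · nlinarith [hb.2]
    have h3 : ‖∫ t, Complex.exp (Complex.I * ((θ * f t : ℝ) : ℂ)) ∂τ‖ ≤ 1 - c / m := by
      refine le_trans h2 ?_
      have h4 : 2 * r * (x ^ 2 / 4) ≤ 2 * r * (1 - |Real.cos x|) := by
        apply mul_le_mul_of_nonneg_left _ (by positivity)
        linarith
      have h5 : 2 * r * (x ^ 2 / 4) = c / m := by
        rw [hx2, hc]
        field_simp
        norm_num
      linarith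
    have h6 : ‖∫ t, Complex.exp (Complex.I * ((θ * f t : ℝ) : ℂ)) ∂τ‖ ^ m ≤ Real.exp (-c) := by
      have h7 : 1 - c / m ≤ Real.exp (-(c / m)) := by
        have := Real.add_one_le_exp (-(c / m))
        linarith
      calc ‖∫ t, Complex.exp (Complex.I * ((θ * f t : ℝ) : ℂ)) ∂τ‖ ^ m
          ≤ (Real.exp (-(c / m))) ^ m :=
            pow_le_pow_left₀ (norm_nonneg _) (le_trans h3 h7) m
        _ = Real.exp (-c) := by
            rw [← Real.exp_nat_mul]
            congr 1
            field_simp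
    have h8 : θ * K m = K m / √m := by rw [hθ]; ring
    rw [h8] at h1
    linarith
  have hlim2 : Tendsto (fun m : ℕ => 1 - K m / √m) atTop (𝓝 (1 - 0)) :=
    tendsto_const_nhds.sub hlim
  have h9 := le_of_tendsto hlim2 hev
  have h10 : Real.exp (-c) < 1 := by
    rw [Real.exp_lt_one_iff]
    linarith
  linarith

end Pool.Agent.Y978.MG
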