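import Mathlib
import Pool.Agent.Y978.MG.Code
import Pool.Agent.Y978.MG.Walk

set_option autoImplicit false

open MeasureTheory Filter
open scoped ENNReal Topology

namespace Pool.Agent.Y978.MG

theorem sum_min_le (G : ℕ → ℝ) (hG0 : ∀ r, 0 ≤ G r) (m : ℕ) :
    ∑ i ∈ Finset.range m, G (min i (m - 1 - i)) ≤ 2 * ∑ r ∈ Finset.range m, G r := by
  have h1 : ∀ i, G (min i (m - 1 - i)) ≤ G i + G (m - 1 - i) := by
    intro i
    rcases le_total i (m - 1 - i) with h | h
    · rw [min_eq_left h]; linarith [hG0 (m - 1 - i)]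
    · rw [min_eq_right h]; linarith [hG0 i]
  calc ∑ i ∈ Finset.range m, G (min i (m - 1 - i))
      ≤ ∑ i ∈ Finset.range m, (G i + G (m - 1 - i)) := Finset.sum_le_sum fun i _ => h1 i
    _ = ∑ i ∈ Finset.range m, G i + ∑ i ∈ Finset.range m, G (m - 1 - i) :=
        Finset.sum_add_distrib
    _ = ∑ i ∈ Finset.range m, G i + ∑ i ∈ Finset.range m, G i := by
        rw [Finset.sum_range_reflect]
    _ = 2 * ∑ r ∈ Finset.range m, G r := by ring

/-- If `√r * G r → 0` then `∑ r < m, G r = o(√m)`. -/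
theorem little_sum (G : ℕ → ℝ) (h0 : ∀ r, 0 ≤ G r)
    (h : Tendsto (fun r : ℕ => √(r : ℝ) * G r) atTop (𝓝 0)) :
    Tendsto (fun m : ℕ => (∑ r ∈ Finset.range m, G r) / √(m : ℝ)) atTop (𝓝 0) := by
  rw [Metric.tendsto_atTop]
  intro ε hε
  have hev : ∀ᶠ r : ℕ in atTop, √(r : ℝ) * G r < ε / 6 :=
    (tendsto_order.1 h).2 _ (by positivity)
  obtain ⟨N0, hN0⟩ := eventually_atTop.1 hev
  set N := max N0 1 with hN
  have hN1 : 1 ≤ N := le_max_right _ _
  have hNN : N0 ≤ N := le_max_left _ _
  have hind : ∀ m, N ≤ m → ∑ r ∈ Finset.range m, G r ≤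
      ∑ r ∈ Finset.range N, G r + (ε / 2) * √(m : ℝ) := by
    intro m hm
    induction m, hm using Nat.le_induction with
    | base =>
      have := Real.sqrt_nonneg (N : ℝ)
      have : 0 ≤ (ε / 2) * √(N : ℝ) := by positivity
      linarith
    | succ m hm ih =>
      rw [Finset.sum_range_succ]
      have hm1 : (1 : ℝ) ≤ m := by exact_mod_cast le_trans hN1 hm
      have hG := hN0 m (le_trans hNN hm)
      have hs : 0 < √(m : ℝ) := Real.sqrt_pos.mpr (by linarith)
      set a := √(m : ℝ) with ha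
      set b := √((m + 1 : ℕ) : ℝ) with hb
      have ha2 : a ^ 2 = m := Real.sq_sqrt (by linarith)
      have hb2 : b ^ 2 = m + 1 := by
        rw [hb, Real.sq_sqrt (by positivity)]; push_cast; ring
      have hb0 : 0 ≤ b := Real.sqrt_nonneg _
      have hb3 : b ≤ 2 * a := by nlinarith
      have hab : (b - a) * (b + a) = 1 := by nlinarith
      have hba : 0 ≤ b - a := by nlinarith
      have h3 : 1 ≤ 3 * (b - a) * a := by nlinarith
      have h4 : G m * a ≤ (ε / 2) * (b - a) * a := by
        have : (ε / 6) * 1 ≤ (ε / 6) * (3 * (b - a) * a) := by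
          apply mul_le_mul_of_nonneg_left h3 (by positivity)
        nlinarith
      have h5 : G m ≤ (ε / 2) * (b - a) := le_of_mul_le_mul_right h4 hs
      linarith
  set A := ∑ r ∈ Finset.range N, G r with hA
  have hA0 : 0 ≤ A := Finset.sum_nonneg fun i _ => h0 i
  obtain ⟨N2, hN2⟩ := exists_nat_gt ((2 * A / ε) ^ 2)
  refine ⟨max N (N2 + 1), fun m hm => ?_⟩
  have hmN : N ≤ m := le_trans (le_max_left _ _) hm
  have hmN2 : N2 + 1 ≤ m := le_trans (le_max_right _ _) hm
  have hm0 : (0 : ℝ) < m := by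
    have : 0 < m := by omega
    exact_mod_cast this
  have hs : 0 < √(m : ℝ) := Real.sqrt_pos.mpr hm0
  have hsum0 : 0 ≤ ∑ r ∈ Finset.range m, G r := Finset.sum_nonneg fun i _ => h0 i
  rw [Real.dist_eq, sub_zero, abs_of_nonneg (by positivity), div_lt_iff₀ hs]
  have h1 := hind m hmN
  have h2 : 2 * A / ε < √(m : ℝ) := by
    apply Real.lt_sqrt_of_sq_lt
    have : (N2 : ℝ) < m := by
      have : N2 < m := by omega
      exact_mod_cast this
    linarith
  rw [div_lt_iff₀ hε] at h2
  nlinarith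

theorem mp_integral {α β : Type*} [MeasurableSpace α] [MeasurableSpace β] {μa : Measure α}
    {μb : Measure β} {f : α → β} (hf : MeasurePreserving f μa μb) {g : β → ℝ}
    (hg : AEStronglyMeasurable g μb) : ∫ a, g (f a) ∂μa = ∫ b, g b ∂μb := by
  have h1 : ∫ b, g b ∂(μa.map f) = ∫ a, g (f a) ∂μa :=
    integral_map hf.measurable.aemeasurable (by rw [hf.map_eq]; exact hg)
  rw [← h1, hf.map_eq]

theorem walk_bound {T : Type*} [MeasurableSpace T] [MeasurableSingletonClass T] (τ : Measure T)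
    [IsProbabilityMeasure τ]
    (μ : Measure (ℤ → Bool)) (φ : (ℤ → T) → (ℤ → Bool)) (g : ℕ → ℝ)
    (hφ : IsFinitaryFactor (Measure.infinitePi fun _ : ℤ => τ) μ φ g)
    (C h : ℝ) (hC : 1 ≤ C)
    (hB : ∀ (m : ℕ) (x : ℤ → Bool), μ {ω | ∀ i ∈ Finset.Ico (0 : ℤ) m, ω i = x i} ≤
      ENNReal.ofReal (C * Real.exp (-(h * m))))
    (hat : ∀ᵐ t ∂τ, τ {t} ≠ 0)
    (hLi : Integrable (fun t => -Real.log (τ.real {t})) τ)
    (hLh : ∫ t, -Real.log (τ.real {t}) ∂τ ≤ h) (m : ℕ) :
    Integrable (fun y : ℤ → T => ∑ i ∈ Finset.Ico (0 : ℤ) m, (-Real.log (τ.real {y i}) - h))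
      (Measure.infinitePi fun _ : ℤ => τ) ∧
    ∫ y : ℤ → T, |∑ i ∈ Finset.Ico (0 : ℤ) m, (-Real.log (τ.real {y i}) - h)|
      ∂(Measure.infinitePi fun _ : ℤ => τ) ≤
      2 * (Real.log C + 2 * (∑ r ∈ Finset.range m, max (g r) 0) * Real.log 2) := by
  set ν : Measure (ℤ → T) := Measure.infinitePi fun _ : ℤ => τ with hν
  obtain ⟨G, hG, hGr⟩ := hφ.window
  set G0 : ℕ → ℝ := fun r => max (g r) 0 with hG0
  -- the walk
  set L : T → ℝ := fun t => -Real.log (τ.real {t}) with hL
  have hLi' : Integrable (fun t => L t - h) τ := hLi.sub (integrable_const _)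
  have hint1 : ∀ i : ℤ, Integrable (fun y : ℤ → T => L (y i) - h) ν := by
    intro i
    exact (measurePreserving_eval_infinitePi (fun _ : ℤ => τ) i).integrable_comp_of_integrable hLi'
  have hintS : Integrable (fun y : ℤ → T => ∑ i ∈ Finset.Ico (0 : ℤ) m, (L (y i) - h)) ν :=
    integrable_finsetSum _ fun i _ => hint1 i
  have hval1 : ∀ i : ℤ, ∫ y : ℤ → T, (L (y i) - h) ∂ν ≤ 0 := by
    intro i
    have hmp := measurePreserving_eval_infinitePi (fun _ : ℤ => τ) i
    have e1 : ∫ y : ℤ → T, (L (y i) - h) ∂ν = ∫ t, (L t - h) ∂τ :=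
      mp_integral hmp hLi'.aestronglyMeasurable
    rw [e1, integral_sub hLi (integrable_const _)]
    simp only [integral_const, probReal_univ, smul_eq_mul, one_mul]
    linarith
  have hvalS : ∫ y : ℤ → T, ∑ i ∈ Finset.Ico (0 : ℤ) m, (L (y i) - h) ∂ν ≤ 0 := by
    rw [integral_finsetSum _ fun i _ => hint1 i]
    exact Finset.sum_nonpos fun i _ => hval1 i
  refine ⟨hintS, ?_⟩
  -- the bad sets
  set Bd : ℕ → Set (ℤ → T) := fun r => toMeasurable ν (badSet φ G r) with hBd
  have hBdm : ∀ r, MeasurableSet (Bd r) := fun r => measurableSet_toMeasurable _ _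
  have hBdν : ∀ r, ν.real (Bd r) ≤ G0 r := by
    intro r
    rw [measureReal_def, hBd]
    simp only
    rw [measure_toMeasurable]
    have h1 := hGr r
    have h2 := ENNReal.toReal_mono ENNReal.ofReal_ne_top h1
    rw [ENNReal.toReal_ofReal'] at h2
    exact h2
  set W : (ℤ → T) → ℝ := fun y => ∑ i ∈ Finset.range m,
    (Bd (min i (m - 1 - i))).indicator (fun _ => (1 : ℝ)) (shift^[i] y) with hW
  have hWi1 : ∀ i : ℕ, Integrable (fun y : ℤ → T =>
      (Bd (min i (m - 1 - i))).indicator (fun _ => (1 : ℝ)) (shift^[i] y)) ν := by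
    intro i
    exact ((shift_mp τ).iterate i).integrable_comp_of_integrable
      ((integrable_const (1 : ℝ)).indicator (hBdm _))
  have hWi : Integrable W ν := integrable_finsetSum _ fun i _ => hWi1 i
  have hWv : ∫ y, W y ∂ν ≤ 2 * ∑ r ∈ Finset.range m, G0 r := by
    rw [hW, integral_finsetSum _ fun i _ => hWi1 i]
    refine le_trans (Finset.sum_le_sum fun i _ => ?_)
      (sum_min_le G0 (fun r => le_max_right _ _) m)
    have hmp := (shift_mp τ).iterate i
    have hstr : AEStronglyMeasurable ((Bd (min i (m - 1 - i))).indicator (fun _ => (1 : ℝ))) ν :=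
      ((integrable_const (1 : ℝ)).indicator (hBdm _)).aestronglyMeasurable
    have e1 : ∫ y : ℤ → T, (Bd (min i (m - 1 - i))).indicator (fun _ => (1 : ℝ))
        (shift^[i] y) ∂ν = ∫ y, (Bd (min i (m - 1 - i))).indicator (fun _ => (1 : ℝ)) y ∂ν :=
      mp_integral hmp hstr
    rw [e1, integral_indicator (hBdm _)]
    simp only [integral_const, MeasurableSet.univ, measureReal_restrict_apply, Set.univ_inter,
      smul_eq_mul, mul_one]
    exact hBdν _
  -- almost sure inequality
  have hlogC : 0 ≤ Real.log C := Real.log_nonneg hC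
  have hlog2 : 0 < Real.log 2 := Real.log_pos (by norm_num)
  have hatν : ∀ᵐ y ∂ν, ∀ i : ℤ, τ {y i} ≠ 0 := by
    rw [ae_all_iff]
    intro i
    exact (measurePreserving_eval_infinitePi (fun _ : ℤ => τ) i).quasiMeasurePreserving.ae hat
  have hae : ∀ᵐ y ∂ν, |∑ i ∈ Finset.Ico (0 : ℤ) m, (L (y i) - h)| ≤
      ∑ i ∈ Finset.Ico (0 : ℤ) m, (L (y i) - h) + 2 * (Real.log C + W y * Real.log 2) := by
    filter_upwards [code_pointwise τ μ φ hφ.measurable hφ.law G hG hφ.equivariant m _ (hB m),
      hatν] with y hy hpos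
    obtain ⟨V, hVm, hVb, hprod⟩ := hy
    have hcard : (V.card : ℝ) ≤ W y := by
      rw [hW]
      simp only
      calc (V.card : ℝ) = ∑ i ∈ V, (1 : ℝ) := by simp
        _ = ∑ i ∈ V, (Bd (min i (m - 1 - i))).indicator (fun _ => (1 : ℝ)) (shift^[i] y) := by
            refine Finset.sum_congr rfl fun i hi => ?_
            rw [Set.indicator_of_mem]
            exact subset_toMeasurable _ _ (hVb i hi)
        _ ≤ _ := Finset.sum_le_sum_of_subset_of_nonneg hVm fun i _ _ =>
            Set.indicator_nonneg (fun _ _ => zero_le_one) _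
    have hprodr : ∏ i ∈ Finset.Ico (0 : ℤ) m, τ.real {y i} ≤
        2 ^ V.card * (C * Real.exp (-(h * m))) := by
      have h1 := ENNReal.toReal_mono (by
        exact ENNReal.mul_ne_top (by finiteness) ENNReal.ofReal_ne_top) hprod
      rw [ENNReal.toReal_prod, ENNReal.toReal_mul, ENNReal.toReal_ofReal (by positivity),
        ENNReal.toReal_pow] at h1
      simpa [measureReal_def] using h1
    have hposr : ∀ i : ℤ, 0 < τ.real {y i} := fun i =>
      ENNReal.toReal_pos (hpos i) (measure_ne_top _ _)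
    have hlog : ∑ i ∈ Finset.Ico (0 : ℤ) m, Real.log (τ.real {y i}) ≤
        V.card * Real.log 2 + (Real.log C + -(h * m)) := by
      have h1 := Real.log_le_log (Finset.prod_pos fun i _ => hposr i) hprodr
      rw [Real.log_prod (fun i _ => (hposr i).ne'), Real.log_mul (by positivity) (by positivity),
        Real.log_mul (by positivity) (by positivity), Real.log_exp, Real.log_pow] at h1
      exact h1
    have hSeq : ∑ i ∈ Finset.Ico (0 : ℤ) m, (L (y i) - h) =
        -∑ i ∈ Finset.Ico (0 : ℤ) m, Real.log (τ.real {y i}) - h * m := by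
      rw [Finset.sum_sub_distrib, Finset.sum_const]
      simp [hL, mul_comm]
    have hge : -(Real.log C + W y * Real.log 2) ≤ ∑ i ∈ Finset.Ico (0 : ℤ) m, (L (y i) - h) := by
      rw [hSeq]
      have h2 : (V.card : ℝ) * Real.log 2 ≤ W y * Real.log 2 := by gcongr
      linarith
    have hN : 0 ≤ Real.log C + W y * Real.log 2 := by
      have : (0 : ℝ) ≤ W y := le_trans (Nat.cast_nonneg _) hcard
      positivity
    rw [abs_le]
    constructor
    · linarith
    · linarith
  calc ∫ y : ℤ → T, |∑ i ∈ Finset.Ico (0 : ℤ) m, (L (y i) - h)| ∂ν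
      ≤ ∫ y : ℤ → T, (∑ i ∈ Finset.Ico (0 : ℤ) m, (L (y i) - h) +
          2 * (Real.log C + W y * Real.log 2)) ∂ν := by
        refine integral_mono_ae hintS.abs ?_ hae
        exact hintS.add (((integrable_const _).add (hWi.mul_const _)).const_mul _)
    _ = ∫ y : ℤ → T, ∑ i ∈ Finset.Ico (0 : ℤ) m, (L (y i) - h) ∂ν +
          2 * (Real.log C + (∫ y, W y ∂ν) * Real.log 2) := by
        have hN1 : Integrable (fun y => W y * Real.log 2) ν := hWi.mul_const _
        have hN2 : Integrable (fun y => Real.log C + W y * Real.log 2) ν :=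
          (integrable_const _).add hN1
        have hN3 : Integrable (fun y => 2 * (Real.log C + W y * Real.log 2)) ν :=
          hN2.const_mul _
        rw [integral_add hintS hN3, integral_const_mul, integral_add (integrable_const _) hN1,
          integral_mul_const]
        simp
    _ ≤ 2 * (Real.log C + 2 * (∑ r ∈ Finset.range m, G0 r) * Real.log 2) := by
        have : (∫ y, W y ∂ν) * Real.log 2 ≤
            2 * (∑ r ∈ Finset.range m, G0 r) * Real.log 2 := by gcongr
        linarith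

end Pool.Agent.Y978.MG
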