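import Mathlib
import Pool.Agent.Y978.MG.Sum

set_option autoImplicit false

open MeasureTheory Filter
open scoped ENNReal Topology

namespace Pool.Agent.Y978.MG

theorem no_code {T : Type*} [MeasurableSpace T] [MeasurableSingletonClass T] (τ : Measure T)
    [IsProbabilityMeasure τ]
    (μ : Measure (ℤ → Bool)) (φ : (ℤ → T) → (ℤ → Bool)) (g : ℕ → ℝ)
    (hφ : IsFinitaryFactor (Measure.infinitePi fun _ : ℤ => τ) μ φ g)
    (hg : Tendsto (fun r : ℕ => √(r : ℝ) * g r) atTop (𝓝 0)) (C h : ℝ) (hC : 1 ≤ C)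
    (hB : ∀ (m : ℕ) (x : ℤ → Bool), μ {ω | ∀ i ∈ Finset.Ico (0 : ℤ) m, ω i = x i} ≤
      ENNReal.ofReal (C * Real.exp (-(h * m))))
    (hat : ∀ᵐ t ∂τ, τ {t} ≠ 0) (hmeas : Measurable fun t => -Real.log (τ.real {t}))
    (hLi : Integrable (fun t => -Real.log (τ.real {t})) τ)
    (hLh : ∫ t, -Real.log (τ.real {t}) ∂τ ≤ h)
    (hh1 : Real.exp (-h) < 1) (hh2 : 1 / 2 < Real.exp (-h)) : False := by
  set K : ℕ → ℝ := fun m =>
    2 * (Real.log C + 2 * (∑ r ∈ Finset.range m, max (g r) 0) * Real.log 2) with hK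
  have hKlim : Tendsto (fun m : ℕ => K m / √(m : ℝ)) atTop (𝓝 0) := by
    have h1 : Tendsto (fun r : ℕ => √(r : ℝ) * max (g r) 0) atTop (𝓝 0) := by
      have h2 := hg.max (tendsto_const_nhds (x := (0 : ℝ)))
      rw [max_self] at h2
      refine h2.congr fun r => ?_
      rw [mul_max_of_nonneg _ _ (Real.sqrt_nonneg _), mul_zero]
    have h3 := little_sum _ (fun r => le_max_right _ _) h1
    have h4 : Tendsto (fun m : ℕ => 1 / √(m : ℝ)) atTop (𝓝 0) := by
      simp only [one_div]
      exact tendsto_inv_atTop_zero.comp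
        (Real.tendsto_sqrt_atTop.comp tendsto_natCast_atTop_atTop)
    have h5 := (h4.const_mul (2 * Real.log C)).add (h3.const_mul (4 * Real.log 2))
    simp only [mul_zero, add_zero] at h5
    refine h5.congr fun m => ?_
    rw [hK]
    ring
  have hwb := walk_bound τ μ φ g hφ C h hC hB hat hLi hLh
  have hconst := walk_const τ (fun t => -Real.log (τ.real {t}) - h) (hmeas.sub_const h) K
    (fun m => (hwb m).1) (fun m => (hwb m).2) hKlim
  obtain ⟨s, hs⟩ := hat.exists
  have hs0 : 0 < τ.real {s} := ENNReal.toReal_pos hs (measure_ne_top _ _)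
  have heq : ∀ t, τ {t} ≠ 0 → τ.real {t} = τ.real {s} := by
    intro t ht
    have ht0 : 0 < τ.real {t} := ENNReal.toReal_pos ht (measure_ne_top _ _)
    have h1 := hconst t s ht0 hs0
    exact Real.log_injOn_pos ht0 hs0 (by linarith)
  have hatν : ∀ᵐ y ∂(Measure.infinitePi fun _ : ℤ => τ), ∀ i : ℤ, τ {y i} ≠ 0 := by
    rw [ae_all_iff]
    intro i
    exact (measurePreserving_eval_infinitePi (fun _ : ℤ => τ) i).quasiMeasurePreserving.ae hat
  have hlin : ∀ m : ℕ, (m : ℝ) * |-Real.log (τ.real {s}) - h| ≤ K m := by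
    intro m
    refine le_trans (le_of_eq ?_) (hwb m).2
    have : ∀ᵐ y ∂(Measure.infinitePi fun _ : ℤ => τ),
        |∑ i ∈ Finset.Ico (0 : ℤ) m, (-Real.log (τ.real {y i}) - h)| =
          (m : ℝ) * |-Real.log (τ.real {s}) - h| := by
      filter_upwards [hatν] with y hy
      rw [Finset.sum_congr rfl fun i _ => by rw [heq (y i) (hy i)]]
      rw [Finset.sum_const]
      simp [abs_mul]
    rw [integral_congr_ae this]
    simp
  have hc0 : -Real.log (τ.real {s}) - h = 0 := by
    by_contra hne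
    have hpos : 0 < |-Real.log (τ.real {s}) - h| := abs_pos.mpr hne
    have hev : ∀ᶠ m : ℕ in atTop, K m / √(m : ℝ) < |-Real.log (τ.real {s}) - h| :=
      (tendsto_order.1 hKlim).2 _ hpos
    obtain ⟨m, hm, hm1⟩ := (hev.and (eventually_ge_atTop 1)).exists
    have hm1' : (1 : ℝ) ≤ m := by exact_mod_cast hm1
    have hsq : 0 < √(m : ℝ) := Real.sqrt_pos.mpr (by linarith)
    rw [div_lt_iff₀ hsq] at hm
    have hsm : √(m : ℝ) ≤ m := by
      rw [Real.sqrt_le_left (by linarith)]
      nlinarith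
    have := hlin m
    nlinarith
  have hp : τ.real {s} = Real.exp (-h) := by
    rw [← Real.exp_log hs0]
    congr 1
    linarith
  have hone : ∀ t, τ {t} ≠ 0 → t = s := by
    intro t ht
    by_contra hne
    have h1 : τ.real ({t} ∪ {s}) = τ.real {t} + τ.real {s} :=
      measureReal_union (by simpa using hne) (measurableSet_singleton _)
    have h2 : τ.real ({t} ∪ {s}) ≤ 1 := measureReal_le_one
    rw [h1, heq t ht, hp] at h2
    linarith
  have hcompl : τ {s}ᶜ = 0 := by
    have := ae_iff.mp hat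
    refine measure_mono_null ?_ this
    intro t ht
    simp only [Set.mem_ofPred_eq, not_not]
    by_contra h0
    exact ht (hone t h0)
  have hfull : τ.real {s} = 1 := by
    have h3 : τ {s} = 1 := by
      rwa [prob_compl_eq_zero_iff (measurableSet_singleton s)] at hcompl
    rw [measureReal_def, h3]
    simp
  rw [hp] at hfull
  linarith

end Pool.Agent.Y978.MG
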