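import Mathlib
import Pool.Agent.Y978.MG.Gold
import Pool.Agent.Y978.MG.KSM
import Pool.Agent.Y978.MG.EntY
import Pool.Agent.Y978.MG.NoCode

set_option autoImplicit false

open MeasureTheory Filter
open scoped ENNReal Topology

namespace Pool.Agent.Y978.MG

theorem path_pos (n : ℕ) (x : ℕ → Bool) (h : ∀ i < n, ¬ (x i = true ∧ x (i + 1) = true)) :
    0 < mu {ω | ω 0 = x 0 ∧ ω n = x n} := by
  have h0 := rho_pos
  have h1 := rho_lt_one
  have h1' : 0 < 1 - rho := by linarith
  have hsub : cyl 0 n x ⊆ {ω | ω 0 = x 0 ∧ ω n = x n} := by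
    intro ω hω
    have e0 := hω 0 (Nat.zero_le _)
    have en := hω n le_rfl
    simp only [CharP.cast_eq_zero, add_zero, zero_add] at e0 en
    exact ⟨e0, en⟩
  refine lt_of_lt_of_le ?_ (measure_mono hsub)
  have h2 : 0 < mu.real (cyl 0 n x) := by
    rw [cyl_ge 0 n x h]
    have h3 : mu.real (cyl 0 0 x) = mu.real {ω' | ω' 0 = x 0} := by
      congr 1
      ext ω'
      simp only [cyl, Set.mem_ofPred_eq]
      constructor
      · intro h
        simpa using h 0 le_rfl
      · intro h i hi
        have : i = 0 := by omega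
        subst this
        simpa using h
    rw [h3]
    have h4 := state_ge 0 (x 0)
    have h5 := vv_pos (x n)
    have h6 := vv_pos (x 0)
    have h7 : 0 < (1 - rho) * rho := by positivity
    have h8 : 0 < mu.real {ω' | ω' 0 = x 0} := lt_of_lt_of_le h7 h4
    positivity
  exact (ENNReal.toReal_pos_iff.mp h2).1

theorem return_le (a : Bool) (n : ℕ) :
    mu.real {ω | ω 0 = a ∧ ∀ i : ℕ, 1 ≤ i → i ≤ n → ω i ≠ a} ≤ rho⁻¹ * rho ^ n := by
  refine le_trans (measureReal_mono ?_) (cyl_le' 0 n (fun i => if i = 0 then a else !a))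
  intro ω hω i hi
  simp only [zero_add]
  rcases Nat.eq_zero_or_pos i with rfl | hpos
  · simpa using hω.1
  · rw [if_neg hpos.ne']
    have := hω.2 i hpos hi
    cases h1 : ω i <;> cases a <;> simp_all

theorem mu_ergodic : IsErgodicMarkov mu where
  prob := inferInstance
  stationary := mu_shift.map_eq
  markov := by
    refine ⟨Pm, Pm_nonneg, ?_, fun k n x => mu_real_markov k n x⟩
    intro a
    have h := hasSum_fintype (Pm a)
    have h1 : ∑ b, Pm a b = 1 := by
      rw [Fintype.sum_bool]
      cases a <;> simp [Pm]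
    rwa [h1] at h
  irreducible := by
    intro a b
    cases a <;> cases b
    · exact ⟨0, path_pos 0 (fun _ => false) (by simp)⟩
    · exact ⟨1, path_pos 1 (fun i => decide (i = 1)) (by simp)⟩
    · exact ⟨1, path_pos 1 (fun i => decide (i = 0)) (by simp)⟩
    · exact ⟨0, path_pos 0 (fun i => decide (i = 0)) (by simp)⟩
  aperiodic := by
    intro a d h
    cases a
    · exact Nat.dvd_one.mp (h 1 le_rfl (path_pos 1 (fun _ => false) (by simp)))
    · have h2 : d ∣ 2 := h 2 (by norm_num)
        (path_pos 2 (fun i => decide (i = 0 ∨ i = 2)) (by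
          intro i hi
          interval_cases i <;> simp))
      have h3 : d ∣ 3 := h 3 (by norm_num)
        (path_pos 3 (fun i => decide (i = 0 ∨ i = 3)) (by
          intro i hi
          interval_cases i <;> simp))
      have h1 : d ∣ 3 - 2 := Nat.dvd_sub h3 h2
      exact Nat.dvd_one.mp h1
  recurrent := by
    intro a
    refine Summable.of_nonneg_of_le (fun n => measureReal_nonneg) (fun n => return_le a n) ?_
    exact (summable_geometric_of_lt_one rho_pos.le rho_lt_one).mul_left _

theorem mu_return : HasExpReturnTimes mu := by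
  have h0 := rho_pos
  have h1 := rho_lt_one
  have h1' : 0 < 1 - rho := by linarith
  have hpos : 0 < mu.real {ω | ω 0 = false} :=
    lt_of_lt_of_le (by positivity : 0 < (1 - rho) * rho) (state_ge 0 false)
  have hh : 0 < hgold := by
    unfold hgold
    rw [Left.neg_pos_iff]
    exact Real.log_neg h0 h1
  refine ⟨false, rho⁻¹ / mu.real {ω | ω 0 = false}, hgold, by positivity, hh, hpos, fun n => ?_⟩
  rw [exp_hgold]
  refine le_trans (return_le false n) (le_of_eq ?_)
  field_simp

theorem main {T : Type*} [MeasurableSpace T] [StandardBorelSpace T] (τ : Measure T)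
    [IsProbabilityMeasure τ]
    (hks : ksEntropy (Measure.infinitePi fun _ : ℤ => τ) shift = ksEntropy mu shift)
    (φ : (ℤ → T) → (ℤ → Bool)) (g : ℕ → ℝ)
    (hg : Tendsto (fun r : ℕ => √(r : ℝ) * g r) atTop (𝓝 0)) :
    ¬ IsFinitaryFactor (Measure.infinitePi fun _ : ℤ => τ) mu φ g := by
  intro hφ
  have h0 := rho_pos
  have h1 := rho_lt_one
  have h1' : 0 < 1 - rho := by linarith
  have hup := ks_upper mu mu_shift hgold ((1 - rho) * rho ^ 2) (by positivity) lower
  rw [← hks] at hup
  obtain ⟨hat, hmeas, hLi, hLh⟩ := entropy_atomic τ hgold hgold_nonneg hup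
  have hC : 1 ≤ (rho⁻¹) ^ 2 := by
    have : 1 ≤ rho⁻¹ := (one_le_inv₀ h0).mpr h1.le
    nlinarith
  exact no_code τ mu φ g hφ hg ((rho⁻¹) ^ 2) hgold hC upper hat hmeas hLi hLh
    (by rw [exp_neg_hgold]; exact h1) (by rw [exp_neg_hgold]; exact half_lt_rho)

end Pool.Agent.Y978.MG
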