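import Mathlib
import Pool.Agent.Y978.MG.Erg

set_option autoImplicit false

open MeasureTheory Filter
open scoped ENNReal Topology

namespace Pool.Agent.Y978.MG

theorem ks_lower : ENNReal.ofReal hgold ≤ ksEntropy mu shift := by
  have h0 := rho_pos
  have h1 := rho_lt_one
  set e : Bool ≃ Fin 2 := finTwoEquiv.symm with he
  set f : (ℤ → Bool) → Fin 2 := fun ω => e (ω 0) with hf
  have hfm : Measurable f := (measurable_of_countable e).comp (measurable_pi_apply 0)
  unfold ksEntropy
  refine le_iSup_of_le 2 (le_iSup_of_le f (le_iSup_of_le hfm ?_))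
  set C : ℝ := (rho⁻¹) ^ 2 with hC
  have hCpos : 0 < C := by positivity
  have hblock : ∀ n : ℕ, hgold * n - Real.log C ≤
      entFin mu (fun ω => fun i : Fin n => f (shift^[i] ω)) := by
    intro n
    set F : (ℤ → Bool) → (Fin n → Fin 2) := fun ω => fun i : Fin n => f (shift^[i] ω) with hF
    have hFm : Measurable F := by
      rw [measurable_pi_iff]
      intro i
      exact hfm.comp (mu_shift.iterate i).measurable
    rw [entFin_eq_integral mu F hFm]
    have hcell : ∀ ω, F ⁻¹' {F ω} ⊆ {ω' | ∀ i ∈ Finset.Ico (0 : ℤ) n, ω' i = ω i} := by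
      intro ω ω' hω' i hi
      rw [Finset.mem_Ico] at hi
      obtain ⟨j, rfl⟩ := Int.eq_ofNat_of_zero_le hi.1
      have hj : j < n := by exact_mod_cast hi.2
      have h2 := congrFun (Set.mem_singleton_iff.mp hω') ⟨j, hj⟩
      simp only [hF, hf] at h2
      have h3 := e.injective h2
      rw [shift_iterate, shift_iterate] at h3
      simpa using h3
    have hle : ∀ ω, mu.real (F ⁻¹' {F ω}) ≤ C * Real.exp (-(hgold * n)) := by
      intro ω
      have h2 := le_trans (measure_mono (hcell ω)) (upper n ω)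
      have h3 := ENNReal.toReal_mono ENNReal.ofReal_ne_top h2
      rwa [ENNReal.toReal_ofReal (by positivity)] at h3
    have hae : ∀ᵐ ω ∂mu, hgold * n - Real.log C ≤ -Real.log (mu.real (F ⁻¹' {F ω})) := by
      filter_upwards [ae_cell_pos mu F] with ω hω
      have h2 := Real.log_le_log hω (hle ω)
      rw [Real.log_mul hCpos.ne' (Real.exp_pos _).ne', Real.log_exp] at h2
      linarith
    have hi := (integral_comp_fin mu F hFm (fun i => -Real.log (mu.real (F ⁻¹' {i})))).1
    calc hgold * n - Real.log C = ∫ _, (hgold * n - Real.log C) ∂mu := by simp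
      _ ≤ ∫ ω, -Real.log (mu.real (F ⁻¹' {F ω})) ∂mu :=
          integral_mono_ae (integrable_const _) hi hae
  have hlim : Tendsto (fun n : ℕ => ENNReal.ofReal (hgold - Real.log C / n)) atTop
      (𝓝 (ENNReal.ofReal (hgold - 0))) :=
    ENNReal.tendsto_ofReal (tendsto_const_nhds.sub (tendsto_const_div_atTop_nhds_zero_nat _))
  rw [sub_zero] at hlim
  rw [← hlim.limsup_eq]
  refine limsup_le_limsup ?_
  filter_upwards [eventually_gt_atTop 0] with n hn
  have hn' : (0 : ℝ) < n := by exact_mod_cast hn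
  apply ENNReal.ofReal_le_ofReal
  rw [le_div_iff₀ hn']
  have h2 := hblock n
  have e1 : (hgold - Real.log C / n) * n = hgold * n - Real.log C := by
    field_simp
  rw [e1]
  exact h2

theorem hgold_eq : hgold = Real.log Real.goldenRatio := by
  unfold hgold rho
  rw [Real.log_inv, neg_neg]

theorem ks_mu : ksEntropy mu shift = ENNReal.ofReal (Real.log Real.goldenRatio) := by
  have h0 := rho_pos
  have h1 : 0 < 1 - rho := by linarith [rho_lt_one]
  rw [← hgold_eq]
  exact le_antisymm (ks_upper mu mu_shift hgold ((1 - rho) * rho ^ 2) (by positivity) lower)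
    ks_lower

theorem final : ∃ μ : Measure (ℤ → Bool), IsErgodicMarkov μ ∧ HasExpReturnTimes μ ∧
    ksEntropy μ shift = ENNReal.ofReal (Real.log Real.goldenRatio) ∧
    ∀ (T : Type) [MeasurableSpace T] [StandardBorelSpace T] (τ : Measure T)
      [IsProbabilityMeasure τ],
      ksEntropy (Measure.infinitePi fun _ : ℤ => τ) shift = ksEntropy μ shift →
      ∀ g : ℕ → ℝ, Tendsto (fun r : ℕ => √(r : ℝ) * g r) atTop (𝓝 0) →
      ∀ φ : (ℤ → T) → (ℤ → Bool),
        ¬ IsFinitaryFactor (Measure.infinitePi fun _ : ℤ => τ) μ φ g :=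
  ⟨mu, mu_ergodic, mu_return, ks_mu, fun _ _ _ τ _ hks g hg φ => main τ hks φ g hg⟩

theorem exp_tail (C c : ℝ) (hc : 0 < c) :
    Tendsto (fun r : ℕ => √(r : ℝ) * (C * Real.exp (-(c * r)))) atTop (𝓝 0) := by
  have h1 : Tendsto (fun x : ℝ => x ^ (1 / 2 : ℝ) * Real.exp (-c * x)) atTop (𝓝 0) :=
    tendsto_rpow_mul_exp_neg_mul_atTop_nhds_zero (1 / 2) c hc
  have h2 := (h1.comp tendsto_natCast_atTop_atTop (α := ℕ)).const_mul C
  rw [mul_zero] at h2
  refine h2.congr fun r => ?_
  simp only [Function.comp_apply]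
  rw [Real.sqrt_eq_rpow, neg_mul]
  ring

end Pool.Agent.Y978.MG
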